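import Pool.Agent.T2H45.Lift

set_option autoImplicit false

namespace Pool.Agent.T2H45

open Finset

variable {m : ℕ} [NeZero m]

lemma one_ne_zero' (hm : 3 ≤ m) : (1 : ZMod m) ≠ 0 := by
  have : Fact (1 < m) := ⟨by omega⟩
  exact one_ne_zero

lemma two_ne_zero' (hm : 3 ≤ m) : (2 : ZMod m) ≠ 0 := by
  intro h
  have h1 : ((2 : ℕ) : ZMod m) = 0 := by exact_mod_cast h
  rw [ZMod.natCast_eq_zero_iff] at h1
  have := Nat.le_of_dvd (by norm_num) h1
  omega

lemma two_ne_one' (hm : 3 ≤ m) : (2 : ZMod m) ≠ 1 := by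
  intro h
  apply one_ne_zero' hm
  linear_combination h

/-- connectivity from invariance under shifts -/
lemma conn_of_shift {r : ℕ} (S : Finset (Fin (r + 1) → ZMod m)) (v0 : Fin r → ZMod m)
    (H : ∀ P : (Fin r → ZMod m) → ZMod m → ZMod m → Prop,
      (∀ w ∈ S, ∀ g h, P (ini w) g h ↔ P (tl w) (g + 1) (h + w 0)) →
      (∀ g h, P v0 g h ↔ P v0 g (h + 1)) ∧ (∀ g h, P v0 g h ↔ P v0 (g + 1) h) ∧
      (∀ w ∈ S, ∀ g h, ∃ g' h', (P (ini w) g h ↔ P v0 g' h'))) : Conn S := by
  intro P hP w hw w' hw' g h g' h' h1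
  obtain ⟨a1, a2, a3⟩ := H P hP
  obtain ⟨g1, h1', e1⟩ := a3 w hw g h
  obtain ⟨g2, h2', e2⟩ := a3 w' hw' g' h'
  rw [e2]
  rw [e1] at h1
  rw [shift_all (Q := fun x => P v0 x h2') (fun x => a2 x h2') g2 g1]
  rw [shift_all (Q := fun x => P v0 g1 x) (fun x => a1 g1 x) h2' h1']
  exact h1

/-- base case: words of length one -/
theorem good_zero (T : Finset (ZMod m)) (h0 : (0 : ZMod m) ∉ T) (h1 : (1 : ZMod m) ∈ T)
    (h2 : (2 : ZMod m) ∈ T) : Good (loops 0 T) := by
  refine ⟨bal_loops _ _, ?_, ?_, ?_⟩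
  · apply conn_of_shift _ 0
    intro P hP
    have hv : ∀ v : Fin 0 → ZMod m, v = 0 := fun v => Subsingleton.elim _ _
    have e : ∀ a ∈ T, ∀ g h, (P 0 g h ↔ P 0 (g + 1) (h + a)) := by
      intro a ha g h
      have := hP (fun _ => a) (mem_loops.2 ⟨a, ha, rfl⟩) g h
      rw [hv (ini _), hv (tl _)] at this
      exact this
    have s1 : ∀ g h, P 0 g h ↔ P 0 g (h + 1) := by
      intro g h
      have e1 := e 1 h1 (g - 1) (h - 1)
      have e2 := e 2 h2 (g - 1) (h - 1)
      rw [sub_add_cancel, sub_add_cancel] at e1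
      rw [sub_add_cancel, show h - 1 + 2 = h + 1 by ring] at e2
      rw [← e1, e2]
    refine ⟨s1, ?_, ?_⟩
    · intro g h
      rw [s1 (g + 1) h]
      exact e 1 h1 g h
    · intro w hw g h
      refine ⟨g, h, ?_⟩
      rw [hv (ini w)]
  · intro h
    obtain ⟨a, ha, h⟩ := mem_loops.1 h
    have := congrFun h 0
    simp only [Pi.zero_apply] at this
    rw [this] at ha
    exact h0 ha
  · exact ⟨fun _ => 1, mem_loops.2 ⟨1, h1, rfl⟩, Subsingleton.elim _ _⟩

/-- two letter word -/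
def pr (x y : ZMod m) : Fin 2 → ZMod m := fun i => if i = 0 then x else y

lemma pr_zero (x y : ZMod m) : pr x y 0 = x := by simp [pr]
lemma pr_one (x y : ZMod m) : pr x y 1 = y := by simp [pr]

lemma pr_inj {x y x' y' : ZMod m} : pr x y = pr x' y' ↔ x = x' ∧ y = y' := by
  constructor
  · intro h
    have h0 := congrFun h 0
    have h1 := congrFun h 1
    rw [pr_zero, pr_zero] at h0
    rw [pr_one, pr_one] at h1
    exact ⟨h0, h1⟩
  · rintro ⟨rfl, rfl⟩; rfl

/-- one letter word -/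
def sg (x : ZMod m) : Fin 1 → ZMod m := fun _ => x

lemma ini_pr (x y : ZMod m) : ini (pr x y) = sg x := by
  funext i
  have : i = 0 := Subsingleton.elim _ _
  subst this
  rfl

lemma tl_pr (x y : ZMod m) : tl (pr x y) = sg y := by
  funext i
  have : i = 0 := Subsingleton.elim _ _
  subst this
  rfl

lemma eq_pr (w : Fin 2 → ZMod m) : w = pr (w 0) (w 1) := by
  funext i
  fin_cases i <;> rfl

lemma sg_inj {x y : ZMod m} : sg x = sg y ↔ x = y := by
  constructor
  · intro h; exact congrFun h 0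
  · rintro rfl; rfl

lemma eq_sg (v : Fin 1 → ZMod m) : v = sg (v 0) := by
  funext i
  have : i = 0 := Subsingleton.elim _ _
  subst this
  rfl

/-- the star: words `0 j` and `j 0` -/
def star (T : Finset (ZMod m)) : Finset (Fin 2 → ZMod m) :=
  (T.image fun j => pr 0 j) ∪ T.image fun j => pr j 0

lemma mem_star {T : Finset (ZMod m)} {w : Fin 2 → ZMod m} :
    w ∈ star T ↔ (∃ j ∈ T, pr 0 j = w) ∨ ∃ j ∈ T, pr j 0 = w := by
  simp [star]

lemma card_star (T : Finset (ZMod m)) (h0 : (0 : ZMod m) ∉ T) : (star T).card = 2 * T.card := by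
  unfold star
  rw [card_union_of_disjoint, card_image_of_injective, card_image_of_injective, two_mul]
  · intro a b h; exact (pr_inj.1 h).1
  · intro a b h; exact (pr_inj.1 h).2
  · rw [Finset.disjoint_left]
    intro w hw hw'
    rw [mem_image] at hw hw'
    obtain ⟨j, hj, rfl⟩ := hw
    obtain ⟨i, hi, h⟩ := hw'
    rw [(pr_inj.1 h).1] at hi
    exact h0 hi

lemma bal_star (T : Finset (ZMod m)) : Bal (star T) := by
  intro v
  apply Finset.card_bij (fun w _ => pr (w 1) (w 0))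
  · intro w hw
    rw [mem_filter, mem_star] at hw
    rw [mem_filter, mem_star, tl_pr]
    obtain ⟨h, rfl⟩ := hw
    refine ⟨?_, (eq_sg (ini w)).symm⟩
    rcases h with ⟨j, hj, rfl⟩ | ⟨j, hj, rfl⟩
    · right; exact ⟨j, hj, by rw [pr_zero, pr_one]⟩
    · left; exact ⟨j, hj, by rw [pr_zero, pr_one]⟩
  · intro w _ w' _ h
    rw [pr_inj] at h
    rw [eq_pr w, eq_pr w', pr_inj]
    exact ⟨h.2, h.1⟩
  · intro w hw
    rw [mem_filter, mem_star] at hw
    obtain ⟨h, rfl⟩ := hw
    refine ⟨pr (w 1) (w 0), ?_, ?_⟩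
    · rw [mem_filter, mem_star, ini_pr]
      refine ⟨?_, (eq_sg (tl w)).symm⟩
      rcases h with ⟨j, hj, rfl⟩ | ⟨j, hj, rfl⟩
      · right; exact ⟨j, hj, by rw [pr_zero, pr_one]⟩
      · left; exact ⟨j, hj, by rw [pr_zero, pr_one]⟩
    · rw [pr_zero, pr_one]; exact (eq_pr w).symm

lemma disj_star_loops (T U : Finset (ZMod m)) (h0 : (0 : ZMod m) ∉ U) :
    Disjoint (star T) (loops 1 U) := by
  rw [Finset.disjoint_left]
  intro w hw hw'
  obtain ⟨a, ha, rfl⟩ := mem_loops.1 hw'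
  rw [mem_star] at hw
  rcases hw with ⟨j, hj, h⟩ | ⟨j, hj, h⟩
  · have := congrFun h 0
    rw [pr_zero] at this
    rw [← this] at ha
    exact h0 ha
  · have := congrFun h 1
    rw [pr_one] at this
    rw [← this] at ha
    exact h0 ha

lemma star_moves {T : Finset (ZMod m)} {P : (Fin 1 → ZMod m) → ZMod m → ZMod m → Prop}
    (hP : ∀ w ∈ star T, ∀ g h, P (ini w) g h ↔ P (tl w) (g + 1) (h + w 0)) :
    ∀ j ∈ T, (∀ g h, P (sg 0) g h ↔ P (sg j) (g + 1) h) ∧
      (∀ g h, P (sg j) g h ↔ P (sg 0) (g + 1) (h + j)) := by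
  intro j hj
  constructor
  · intro g h
    have := hP (pr 0 j) (mem_star.2 (Or.inl ⟨j, hj, rfl⟩)) g h
    rw [ini_pr, tl_pr, pr_zero, add_zero] at this
    exact this
  · intro g h
    have := hP (pr j 0) (mem_star.2 (Or.inr ⟨j, hj, rfl⟩)) g h
    rw [ini_pr, tl_pr, pr_zero] at this
    exact this

lemma star_ini {T : Finset (ZMod m)} {w : Fin 2 → ZMod m} (hw : w ∈ star T) :
    ini w = sg 0 ∨ ∃ j ∈ T, ini w = sg j := by
  rcases mem_star.1 hw with ⟨j, hj, rfl⟩ | ⟨j, hj, rfl⟩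
  · left; rw [ini_pr]
  · right; exact ⟨j, hj, by rw [ini_pr]⟩

theorem good_star_loops (T U : Finset (ZMod m)) (h0 : (0 : ZMod m) ∉ T)
    (hUT : U ⊆ T) (h1 : (1 : ZMod m) ∈ U) : Good (star T ∪ loops 1 U) := by
  have h0U : (0 : ZMod m) ∉ U := fun h => h0 (hUT h)
  refine ⟨bal_union (disj_star_loops T U h0U) (bal_star T) (bal_loops _ _), ?_, ?_, ?_⟩
  · apply conn_of_shift _ (sg 0)
    intro P hP
    have hs := star_moves (P := P) (T := T) (fun w hw => hP w (mem_union_left _ hw))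
    obtain ⟨s1, s2⟩ := hs 1 (hUT h1)
    have hl : ∀ g h, P (sg 1) g h ↔ P (sg 1) (g + 1) (h + 1) := by
      intro g h
      exact hP (fun _ => 1) (mem_union_right _ (mem_loops.2 ⟨1, h1, rfl⟩)) g h
    -- shift by (1,1)
    have e1 : ∀ g h, P (sg 0) g h ↔ P (sg 0) (g + 1) (h + 1) := by
      intro g h
      rw [s1 g h, hl (g + 1) h, s1 (g + 1) (h + 1)]
    -- shift by (2,1)
    have e2 : ∀ g h, P (sg 0) g h ↔ P (sg 0) (g + 1 + 1) (h + 1) := by
      intro g h
      rw [s1 g h, s2 (g + 1) h]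
    have e3 : ∀ g h, P (sg 0) g h ↔ P (sg 0) (g + 1) h := by
      intro g h
      have a1 := e2 (g - 1) (h - 1)
      have a2 := e1 (g - 1) (h - 1)
      rw [sub_add_cancel, sub_add_cancel] at a1
      rw [sub_add_cancel, sub_add_cancel] at a2
      rw [← a1, a2]
    refine ⟨?_, e3, ?_⟩
    · intro g h
      rw [e3 g (h + 1)]
      exact e1 g h
    · intro w hw g h
      rcases mem_union.1 hw with hw | hw
      · rcases star_ini hw with e | ⟨j, hj, e⟩
        · rw [e]; exact ⟨g, h, Iff.rfl⟩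
        · rw [e]; exact ⟨g + 1, h + j, (hs j hj).2 g h⟩
      · obtain ⟨a, ha, rfl⟩ := mem_loops.1 hw
        exact ⟨g + 1, h + a, (hs a (hUT ha)).2 g h⟩
  · intro h
    rcases mem_union.1 h with h | h
    · rcases mem_star.1 h with ⟨j, hj, e⟩ | ⟨j, hj, e⟩
      · have := congrFun e 1
        rw [pr_one] at this
        rw [this] at hj
        exact h0 hj
      · have := congrFun e 0
        rw [pr_zero] at this
        rw [this] at hj
        exact h0 hj
    · obtain ⟨a, ha, e⟩ := mem_loops.1 h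
      have := congrFun e 0
      simp only [Pi.zero_apply] at this
      rw [this] at ha
      exact h0U ha
  · refine ⟨pr 0 1, mem_union_left _ (mem_star.2 (Or.inl ⟨1, hUT h1, rfl⟩)), ?_⟩
    rw [ini_pr]; rfl

/-- the star alone, for three letters -/
theorem good_three : ∃ S : Finset (Fin 2 → ZMod 3), Good S ∧ S.card = 4 := by
  refine ⟨star {1, 2}, ⟨bal_star _, ?_, ?_, ?_⟩, ?_⟩
  · apply conn_of_shift _ (sg 0)
    intro P hP
    have hs := star_moves hP
    obtain ⟨s1, s2⟩ := hs 1 (by simp)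
    obtain ⟨t1, t2⟩ := hs 2 (by simp)
    have e1 : ∀ g h, P (sg 0) g h ↔ P (sg 0) (g + 1 + 1) (h + 1) := by
      intro g h
      rw [s1 g h, s2 (g + 1) h]
    have e2 : ∀ g h, P (sg 0) g h ↔ P (sg 0) (g + 1 + 1) (h + 2) := by
      intro g h
      rw [t1 g h, t2 (g + 1) h]
    have e3 : ∀ g h, P (sg 0) g h ↔ P (sg 0) g (h + 1) := by
      intro g h
      have a1 := e1 (g - 1 - 1) (h - 1)
      have a2 := e2 (g - 1 - 1) (h - 1)
      rw [sub_add_cancel, sub_add_cancel, sub_add_cancel] at a1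
      rw [sub_add_cancel, sub_add_cancel, show h - 1 + 2 = h + 1 by ring] at a2
      rw [← a1, a2]
    refine ⟨e3, ?_, ?_⟩
    · intro g h
      have a1 := e2 g h
      have a2 := e2 (g + 1 + 1) (h + 2)
      rw [a1, a2]
      have h3 : (3 : ZMod 3) = 0 := by decide
      rw [show g + 1 + 1 + 1 + 1 = g + 1 + 3 by ring, h3, add_zero,
        show h + 2 + 2 = h + 1 + 3 by ring, h3, add_zero]
      exact (e3 (g + 1) h).symm
    · intro w hw g h
      rcases star_ini hw with e | ⟨j, hj, e⟩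
      · rw [e]; exact ⟨g, h, Iff.rfl⟩
      · rw [e]; exact ⟨g + 1, h + j, (hs j hj).2 g h⟩
  · intro h
    rcases mem_star.1 h with ⟨j, hj, e⟩ | ⟨j, hj, e⟩
    · have := congrFun e 1
      rw [pr_one] at this
      rw [this] at hj
      revert hj
      decide
    · have := congrFun e 0
      rw [pr_zero] at this
      rw [this] at hj
      revert hj
      decide
  · refine ⟨pr 0 1, (mem_star.2 (Or.inl ⟨1, by simp, rfl⟩)), ?_⟩
    rw [ini_pr]; rfl
  · rw [card_star _ (by decide)]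
    decide

/-- special set for four letters -/
theorem good_four : ∃ S : Finset (Fin 2 → ZMod 4), Good S ∧ S.card = 4 := by
  refine ⟨{pr 0 1, pr 1 2, pr 2 0, pr 2 2}, ⟨?_, ?_, ?_, ?_⟩, ?_⟩
  · intro v
    rw [eq_sg v]
    generalize v 0 = x
    simp only [filter_insert, filter_singleton, ini_pr, tl_pr, sg_inj]
    revert x
    decide
  · apply conn_of_shift _ (sg 2)
    intro P hP
    have h01 := hP (pr 0 1) (by simp)
    have h12 := hP (pr 1 2) (by simp)
    have h20 := hP (pr 2 0) (by simp)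
    have h22 := hP (pr 2 2) (by simp)
    simp only [ini_pr, tl_pr, pr_zero, add_zero] at h01 h12 h20 h22
    -- the triangle
    have e1 : ∀ g h, P (sg 2) g h ↔ P (sg 2) (g + 1 + 1 + 1) (h + 2 + 1) := by
      intro g h
      rw [h20 g h, h01 (g + 1) (h + 2), h12 (g + 1 + 1) (h + 2)]
    have e2 : ∀ g h, P (sg 2) g h ↔ P (sg 2) (g + 1 + 1 + 1) (h + 2 + 2 + 2) := by
      intro g h
      rw [h22 g h, h22 (g + 1) (h + 2), h22 (g + 1 + 1) (h + 2 + 2)]
    have h4 : (4 : ZMod 4) = 0 := by decide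
    have e3 : ∀ g h, P (sg 2) g h ↔ P (sg 2) g (h + 1) := by
      intro g h
      have a1 := e1 (g - 3) (h - 2)
      have a2 := e2 (g - 3) (h - 2)
      rw [show g - 3 + 1 + 1 + 1 = g by ring, sub_add_cancel] at a1
      rw [show g - 3 + 1 + 1 + 1 = g by ring, sub_add_cancel,
        show h + 2 + 2 = h + 4 by ring, h4, add_zero] at a2
      rw [← a1, ← a2]
    refine ⟨e3, ?_, ?_⟩
    · intro g h
      rw [h22 g h, e3 (g + 1) h, e3 (g + 1) (h + 1), add_assoc h 1 1, one_add_one_eq_two]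
    · intro w hw g h
      simp only [mem_insert, mem_singleton] at hw
      rcases hw with rfl | rfl | rfl | rfl
      · rw [ini_pr, h01, h12]; exact ⟨_, _, Iff.rfl⟩
      · rw [ini_pr, h12]; exact ⟨_, _, Iff.rfl⟩
      · rw [ini_pr]; exact ⟨_, _, Iff.rfl⟩
      · rw [ini_pr]; exact ⟨_, _, Iff.rfl⟩
  · decide
  · refine ⟨pr 0 1, by simp, ?_⟩
    rw [ini_pr]; rfl
  · decide

theorem good_one_small (hm : 3 ≤ m) (N : ℕ) (h1 : m ≤ N) (h2 : N < 2 * m) :
    ∃ S : Finset (Fin 2 → ZMod m), Good S ∧ S.card = N := by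
  have key : ∀ t u : ℕ, 1 ≤ u → u ≤ t → t ≤ m - 1 → 2 * t + u = N →
      ∃ S : Finset (Fin 2 → ZMod m), Good S ∧ S.card = N := by
    intro t u hu hut ht hN
    obtain ⟨T, hT1, hT2, hT3⟩ := Finset.exists_subsuperset_card_eq
      (s := ({1} : Finset (ZMod m))) (t := univ.erase 0) (n := t)
      (by
        intro x hx
        rw [mem_singleton] at hx
        rw [mem_erase, hx]
        exact ⟨one_ne_zero' hm, mem_univ _⟩) (by rw [card_singleton]; omega)
      (by rw [card_erase_of_mem (mem_univ _), card_univ, ZMod.card]; exact ht)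
    obtain ⟨U, hU1, hU2, hU3⟩ := Finset.exists_subsuperset_card_eq
      (s := ({1} : Finset (ZMod m))) (t := T) (n := u) hT1 (by rw [card_singleton]; exact hu)
      (by rw [hT3]; exact hut)
    have h0 : (0 : ZMod m) ∉ T := fun h => (mem_erase.1 (hT2 h)).1 rfl
    have h0U : (0 : ZMod m) ∉ U := fun h => h0 (hU2 h)
    refine ⟨star T ∪ loops 1 U, good_star_loops T U h0 hU2 (hU1 (mem_singleton_self _)), ?_⟩
    rw [card_union_of_disjoint (disj_star_loops T U h0U), card_star T h0, card_loops, hT3, hU3, hN]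
  by_cases h4 : N = 4
  · have : m = 3 ∨ m = 4 := by omega
    rcases this with rfl | rfl
    · rw [h4]; exact good_three
    · rw [h4]; exact good_four
  · rcases Nat.even_or_odd' N with ⟨c, hc | hc⟩
    · exact key (c - 1) 2 (by norm_num) (by omega) (by omega) (by omega)
    · exact key c 1 le_rfl (by omega) (by omega) (by omega)

lemma exists_loopset (hm : 3 ≤ m) (q : ℕ) (hq1 : 2 ≤ q) (hq2 : q < m) :
    ∃ S : Finset (Fin 1 → ZMod m), Good S ∧ S.card = q := by
  obtain ⟨T, hT1, hT2, hT3⟩ := Finset.exists_subsuperset_card_eq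
    (s := ({1, 2} : Finset (ZMod m))) (t := univ.erase 0) (n := q)
    (by
      intro x hx
      rw [mem_insert, mem_singleton] at hx
      rw [mem_erase]
      refine ⟨?_, mem_univ _⟩
      rcases hx with rfl | rfl
      · exact one_ne_zero' hm
      · exact two_ne_zero' hm) (le_trans (card_le_two) hq1)
    (by rw [card_erase_of_mem (mem_univ _), card_univ, ZMod.card]; omega)
  have h0 : (0 : ZMod m) ∉ T := fun h => (mem_erase.1 (hT2 h)).1 rfl
  refine ⟨loops 0 T, good_zero T h0 (hT1 (by simp)) (hT1 (by simp)), ?_⟩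
  rw [card_loops, hT3]

lemma exists_step {r : ℕ} (hm : 3 ≤ m) {S : Finset (Fin (r + 1) → ZMod m)} (hS : Good S) (s : ℕ)
    (hs : s < m) : ∃ S' : Finset (Fin (r + 2) → ZMod m), Good S' ∧ S'.card = m * S.card + s := by
  obtain ⟨T, hT1, hT2⟩ := Finset.exists_subset_card_eq
    (s := (univ.erase 0 : Finset (ZMod m))) (n := s)
    (by rw [card_erase_of_mem (mem_univ _), card_univ, ZMod.card]; omega)
  have h0 : (0 : ZMod m) ∉ T := fun h => (mem_erase.1 (hT1 h)).1 rfl
  refine ⟨lift S ∪ loops (r + 1) T, good_step hS T h0, ?_⟩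
  rw [card_union_of_disjoint (disjoint_loops hS.zero T), card_lift, card_loops, hT2]

theorem good_exists (hm : 3 ≤ m) : ∀ (r N : ℕ), m ^ (r + 1) ≤ N → N < m ^ (r + 2) →
    ∃ S : Finset (Fin (r + 2) → ZMod m), Good S ∧ S.card = N := by
  intro r
  induction r with
  | zero =>
    intro N h1 h2
    rw [zero_add, pow_one] at h1
    by_cases h3 : N < 2 * m
    · exact good_one_small hm N h1 h3
    · have hq1 : 2 ≤ N / m := by
        rw [Nat.le_div_iff_mul_le (by omega)]; omega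
      have hq2 : N / m < m := by
        rw [Nat.div_lt_iff_lt_mul (by omega)]
        rw [zero_add, sq] at h2; exact h2
      obtain ⟨S, hS, hSc⟩ := exists_loopset hm (N / m) hq1 hq2
      obtain ⟨S', hS', hc⟩ := exists_step hm hS (N % m) (Nat.mod_lt _ (by omega))
      refine ⟨S', hS', ?_⟩
      rw [hc, hSc]
      exact Nat.div_add_mod N m
  | succ r ih =>
    intro N h1 h2
    have hq1 : m ^ (r + 1) ≤ N / m := by
      rw [Nat.le_div_iff_mul_le (by omega), ← pow_succ]; exact h1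
    have hq2 : N / m < m ^ (r + 2) := by
      rw [Nat.div_lt_iff_lt_mul (by omega), ← pow_succ]; exact h2
    obtain ⟨S, hS, hSc⟩ := ih (N / m) hq1 hq2
    obtain ⟨S', hS', hc⟩ := exists_step hm hS (N % m) (Nat.mod_lt _ (by omega))
    refine ⟨S', hS', ?_⟩
    rw [hc, hSc]
    exact Nat.div_add_mod N m

end Pool.Agent.T2H45
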