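import Mathlib

set_option autoImplicit false

namespace Pool.Agent.T2H45

open Finset

/-! ### Euler circuits as permutations with one orbit -/

section euler

variable {E V : Type*} [Fintype E] [DecidableEq E] [DecidableEq V]

/-- Merging two orbits by a transposition. -/
lemma merge (σ : Equiv.Perm E) (e e' : E) (h : ¬ σ.SameCycle e e') :
    (σ * Equiv.swap e e').SameCycle e e' ∧
      ∀ x, σ.SameCycle e x → (σ * Equiv.swap e e').SameCycle e x := by
  set τ := σ * Equiv.swap e e' with hτ
  have hne : e ≠ e' := by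
    rintro rfl
    exact h (Equiv.Perm.SameCycle.refl _ _)
  have t1 : τ e = σ e' := by simp [hτ]
  have t2 : τ e' = σ e := by simp [hτ]
  have t3 : ∀ x, x ≠ e → x ≠ e' → τ x = σ x := by
    intro x h1 h2
    simp [hτ, Equiv.swap_apply_of_ne_of_ne h1 h2]
  -- e' lies in the orbit of e
  have key : τ.SameCycle e e' := by
    by_contra hcon
    have step : ∀ j : ℕ, τ.SameCycle e ((σ ^ (j + 1)) e') := by
      intro j
      induction j with
      | zero =>
        rw [zero_add, pow_one, ← t1]
        exact (Equiv.Perm.sameCycle_apply_right).2 (Equiv.Perm.SameCycle.refl _ _)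
      | succ j ih =>
        have h1 : (σ ^ (j + 1)) e' ≠ e := by
          intro h1
          apply h
          rw [← h1]
          exact (Equiv.Perm.SameCycle.symm ⟨((j + 1 : ℕ) : ℤ), by rw [zpow_natCast]⟩)
        have h2 : (σ ^ (j + 1)) e' ≠ e' := by
          intro h2
          rw [h2] at ih
          exact hcon ih
        have h3 := t3 _ h1 h2
        have : (σ ^ (j + 1 + 1)) e' = τ ((σ ^ (j + 1)) e') := by
          rw [h3, pow_succ' σ (j + 1), Equiv.Perm.mul_apply]
        rw [this]
        exact (Equiv.Perm.sameCycle_apply_right).2 ih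
    have hpos : 0 < orderOf σ := orderOf_pos σ
    have h4 := step (orderOf σ - 1)
    rw [Nat.sub_add_cancel hpos, pow_orderOf_eq_one] at h4
    exact hcon h4
  refine ⟨key, ?_⟩
  have step : ∀ j : ℕ, τ.SameCycle e ((σ ^ j) e) := by
    intro j
    induction j with
    | zero => exact Equiv.Perm.SameCycle.refl _ _
    | succ j ih =>
      rw [pow_succ' σ j, Equiv.Perm.mul_apply]
      by_cases h1 : (σ ^ j) e = e
      · rw [h1, ← t2]
        exact (Equiv.Perm.sameCycle_apply_right).2 key
      · have h2 : (σ ^ j) e ≠ e' := by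
          intro h2
          exact h ⟨(j : ℤ), by rw [zpow_natCast]; exact h2⟩
        rw [← t3 _ h1 h2]
        exact (Equiv.Perm.sameCycle_apply_right).2 ih
  intro x hx
  obtain ⟨i, -, hi⟩ := hx.exists_pow_eq'
  rw [← hi]
  exact step i

lemma exists_perm (src tgt : E → V)
    (hbal : ∀ v, (univ.filter fun e => src e = v).card = (univ.filter fun e => tgt e = v).card) :
    ∃ σ : Equiv.Perm E, ∀ e, src (σ e) = tgt e := by
  classical
  have hv : ∀ v, Nonempty ({e // tgt e = v} ≃ {e // src e = v}) := by
    intro v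
    apply Fintype.card_eq.1
    rw [Fintype.card_subtype, Fintype.card_subtype]
    exact (hbal v).symm
  let f : ∀ v, {e // tgt e = v} ≃ {e // src e = v} := fun v => (hv v).some
  refine ⟨(Equiv.sigmaFiberEquiv tgt).symm.trans
    ((Equiv.sigmaCongrRight f).trans (Equiv.sigmaFiberEquiv src)), fun e => ?_⟩
  exact (f (tgt e) ⟨e, rfl⟩).2

theorem exists_circuit (src tgt : E → V)
    (hbal : ∀ v, (univ.filter fun e => src e = v).card = (univ.filter fun e => tgt e = v).card)
    (hconn : ∀ P : V → Prop, (∀ e, P (src e) ↔ P (tgt e)) → ∀ e e', P (src e) → P (src e')) :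
    ∃ σ : Equiv.Perm E, (∀ e, src (σ e) = tgt e) ∧ ∀ e e', σ.SameCycle e e' := by
  classical
  rcases isEmpty_or_nonempty E with hE | ⟨⟨e0⟩⟩
  · exact ⟨1, fun e => (hE.false e).elim, fun e => (hE.false e).elim⟩
  obtain ⟨σ0, h0⟩ := exists_perm src tgt hbal
  obtain ⟨σ, hσ, hmax⟩ := Finset.exists_max_image
    ((univ : Finset (Equiv.Perm E)).filter fun σ => ∀ e, src (σ e) = tgt e)
    (fun σ => (univ.filter fun x => σ.SameCycle e0 x).card)
    ⟨σ0, by simpa using h0⟩
  rw [mem_filter] at hσ
  have hσ' := hσ.2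
  -- closed under having the same target
  have rule1 : ∀ e e', σ.SameCycle e0 e → tgt e = tgt e' → σ.SameCycle e0 e' := by
    intro e e' he ht
    by_contra hcon
    have hnot : ¬ σ.SameCycle e e' := fun h => hcon (he.trans h)
    obtain ⟨m1, m2⟩ := merge σ e e' hnot
    set τ := σ * Equiv.swap e e' with hτ
    have hτv : ∀ x, src (τ x) = tgt x := by
      intro x
      by_cases h1 : x = e
      · subst h1
        simp [hτ, hσ', ht]
      · by_cases h2 : x = e'
        · subst h2
          simp [hτ, hσ', ht]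
        · simp [hτ, Equiv.swap_apply_of_ne_of_ne h1 h2, hσ']
    have hle := hmax τ (by simpa using hτv)
    have hsub : (univ.filter fun x => σ.SameCycle e0 x) ⊂ (univ.filter fun x => τ.SameCycle e0 x) := by
      rw [Finset.ssubset_iff_of_subset]
      · refine ⟨e', ?_, ?_⟩
        · rw [mem_filter]
          exact ⟨mem_univ _, ((m2 e0 he.symm).symm).trans m1⟩
        · rw [mem_filter]
          exact fun h => hcon h.2
      · intro x hx
        rw [mem_filter] at hx ⊢
        refine ⟨mem_univ _, ((m2 e0 he.symm).symm).trans (m2 x (he.symm.trans hx.2))⟩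
    exact absurd hle (not_le.2 (card_lt_card hsub))
  have hinv : ∀ e, src e = tgt (σ.symm e) := by
    intro e
    have := hσ' (σ.symm e)
    rwa [Equiv.apply_symm_apply] at this
  have hP := hconn (fun v => ∃ e, σ.SameCycle e0 e ∧ tgt e = v) (by
    intro e
    constructor
    · rintro ⟨e1, h1, h2⟩
      have h3 : σ.SameCycle e0 (σ.symm e) := rule1 e1 _ h1 (h2.trans (hinv e))
      refine ⟨e, ?_, rfl⟩
      have h4 := (Equiv.Perm.sameCycle_apply_right (f := σ) (x := e0) (y := σ.symm e)).2 h3
      rwa [Equiv.apply_symm_apply] at h4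
    · rintro ⟨e1, h1, h2⟩
      have h3 : σ.SameCycle e0 e := rule1 e1 _ h1 h2
      refine ⟨σ.symm e, ?_, (hinv e).symm⟩
      rw [← Equiv.Perm.sameCycle_apply_right (f := σ), Equiv.apply_symm_apply]
      exact h3)
  have hall : ∀ e, σ.SameCycle e0 e := by
    intro e
    obtain ⟨e1, h1, h2⟩ := hP e0 e ⟨σ.symm e0, by
      rw [← Equiv.Perm.sameCycle_apply_right (f := σ), Equiv.apply_symm_apply], (hinv e0).symm⟩
    have h3 : σ.SameCycle e0 (σ.symm e) := rule1 e1 _ h1 (h2.trans (hinv e))
    have h4 := (Equiv.Perm.sameCycle_apply_right (f := σ) (x := e0) (y := σ.symm e)).2 h3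
    rwa [Equiv.apply_symm_apply] at h4
  exact ⟨σ, hσ', fun e e' => (hall e).symm.trans (hall e')⟩

end euler

end Pool.Agent.T2H45
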