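import Pool.Agent.T2H45.Seq

set_option autoImplicit false

namespace Pool.Agent.T2H45

open Finset

variable {m : ℕ} [NeZero m]

/-- difference word -/
def D {r : ℕ} (w : Fin (r + 1) → ZMod m) : Fin r → ZMod m := fun i => w i.succ - w i.castSucc

lemma ini_D {r : ℕ} (w : Fin (r + 2) → ZMod m) : ini (D w) = D (ini w) := by
  funext i
  rfl

lemma tl_D {r : ℕ} (w : Fin (r + 2) → ZMod m) : tl (D w) = D (tl w) := by
  funext i
  rfl

lemma D_inj {r : ℕ} {w w' : Fin (r + 1) → ZMod m} (h0 : w 0 = w' 0) (h : D w = D w') : w = w' := by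
  funext i
  induction i using Fin.induction with
  | zero => exact h0
  | succ i ih =>
    have h1 := congrFun h i
    unfold D at h1
    rw [ih] at h1
    exact sub_left_injective h1

/-- words as first letter and difference word -/
noncomputable def mkE (r : ℕ) : (Fin (r + 1) → ZMod m) ≃ ZMod m × (Fin r → ZMod m) :=
  Equiv.ofBijective (fun w => (w 0, D w)) (by
    rw [Fintype.bijective_iff_injective_and_card]
    constructor
    · intro w w' h
      rw [Prod.mk.injEq] at h
      exact D_inj h.1 h.2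
    · simp [pow_succ, mul_comm])

noncomputable def mk {r : ℕ} (b : ZMod m) (d : Fin r → ZMod m) : Fin (r + 1) → ZMod m :=
  (mkE r).symm (b, d)

lemma mk_spec {r : ℕ} (b : ZMod m) (d : Fin r → ZMod m) : mk b d 0 = b ∧ D (mk b d) = d := by
  have h := (mkE r).apply_symm_apply (b, d)
  unfold mkE at h
  rw [Equiv.ofBijective_apply] at h
  rw [Prod.mk.injEq] at h
  exact h

lemma eq_mk {r : ℕ} {b : ZMod m} {d : Fin r → ZMod m} {w : Fin (r + 1) → ZMod m} (h0 : w 0 = b)
    (h : D w = d) : w = mk b d := by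
  obtain ⟨h1, h2⟩ := mk_spec b d
  exact D_inj (h0.trans h1.symm) (h.trans h2.symm)

lemma ini_mk {r : ℕ} (b : ZMod m) (x : Fin (r + 1) → ZMod m) : ini (mk b x) = mk b (ini x) := by
  obtain ⟨h1, h2⟩ := mk_spec b x
  apply eq_mk
  · exact h1
  · rw [← ini_D, h2]

lemma tl_mk {r : ℕ} (b : ZMod m) (x : Fin (r + 1) → ZMod m) :
    tl (mk b x) = mk (b + x 0) (tl x) := by
  obtain ⟨h1, h2⟩ := mk_spec b x
  apply eq_mk
  · have h3 := congrFun h2 0
    unfold D at h3
    have h4 : mk b x (0 : Fin (r + 1)).castSucc = b := h1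
    rw [h4] at h3
    rw [← h3]
    unfold tl
    ring
  · rw [← tl_D, h2]

lemma mk_zero {r : ℕ} (b : ZMod m) : mk b (0 : Fin r → ZMod m) = fun _ => b := by
  symm
  apply eq_mk rfl
  funext i
  simp [D]

/-- balanced sets of words -/
def Bal {r : ℕ} (S : Finset (Fin (r + 1) → ZMod m)) : Prop :=
  ∀ v : Fin r → ZMod m, (S.filter fun w => ini w = v).card = (S.filter fun w => tl w = v).card

/-- the covering graph for length and letter sum modulo `m` is connected -/
def Conn {r : ℕ} (S : Finset (Fin (r + 1) → ZMod m)) : Prop :=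
  ∀ P : (Fin r → ZMod m) → ZMod m → ZMod m → Prop,
    (∀ w ∈ S, ∀ g h, P (ini w) g h ↔ P (tl w) (g + 1) (h + w 0)) →
    ∀ w ∈ S, ∀ w' ∈ S, ∀ g h g' h', P (ini w) g h → P (ini w') g' h'

structure Good {r : ℕ} (S : Finset (Fin (r + 1) → ZMod m)) : Prop where
  bal : Bal S
  conn : Conn S
  zero : (0 : Fin (r + 1) → ZMod m) ∉ S
  visit : ∃ w ∈ S, ini w = 0

/-- all words whose difference word is in `S` -/
def lift {r : ℕ} (S : Finset (Fin (r + 1) → ZMod m)) : Finset (Fin (r + 2) → ZMod m) :=
  univ.filter fun w => D w ∈ S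

lemma mem_lift {r : ℕ} {S : Finset (Fin (r + 1) → ZMod m)} {w : Fin (r + 2) → ZMod m} :
    w ∈ lift S ↔ D w ∈ S := by simp [lift]

lemma mk_mem_lift {r : ℕ} {S : Finset (Fin (r + 1) → ZMod m)} {b : ZMod m}
    {x : Fin (r + 1) → ZMod m} (hx : x ∈ S) : mk b x ∈ lift S := by
  rw [mem_lift, (mk_spec b x).2]; exact hx

lemma card_lift_letter {r : ℕ} (S : Finset (Fin (r + 1) → ZMod m)) (b : ZMod m) :
    ((lift S).filter fun w => w 0 = b).card = S.card := by
  symm
  apply Finset.card_bij (fun x _ => mk b x)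
  · intro x hx
    rw [mem_filter]
    exact ⟨mk_mem_lift hx, (mk_spec b x).1⟩
  · intro x hx y hy h
    rw [← (mk_spec b x).2, h, (mk_spec b y).2]
  · intro w hw
    rw [mem_filter, mem_lift] at hw
    exact ⟨D w, hw.1, (eq_mk hw.2 rfl).symm⟩

lemma card_lift {r : ℕ} (S : Finset (Fin (r + 1) → ZMod m)) : (lift S).card = m * S.card := by
  rw [Finset.card_eq_sum_card_fiberwise (f := fun w => w 0) (t := (univ : Finset (ZMod m)))
    (fun x _ => by simp)]
  rw [Finset.sum_congr rfl (fun b _ => card_lift_letter S b), sum_const, card_univ, ZMod.card,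
    smul_eq_mul]

lemma bal_lift {r : ℕ} {S : Finset (Fin (r + 1) → ZMod m)} (hS : Bal S) : Bal (lift S) := by
  intro v
  have h1 : ((lift S).filter fun w => ini w = v).card = (S.filter fun x => ini x = D v).card := by
    apply Finset.card_bij (fun w _ => D w)
    · intro w hw
      rw [mem_filter, mem_lift] at hw
      rw [mem_filter]
      exact ⟨hw.1, by rw [ini_D, hw.2]⟩
    · intro w hw w' hw' h
      rw [mem_filter] at hw hw'
      apply D_inj _ h
      have e1 : w 0 = v 0 := by rw [← hw.2]; rfl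
      have e2 : w' 0 = v 0 := by rw [← hw'.2]; rfl
      rw [e1, e2]
    · intro x hx
      rw [mem_filter] at hx
      refine ⟨mk (v 0) x, ?_, (mk_spec _ _).2⟩
      rw [mem_filter]
      refine ⟨mk_mem_lift hx.1, ?_⟩
      rw [ini_mk]
      exact (eq_mk rfl hx.2.symm).symm
  have h2 : ((lift S).filter fun w => tl w = v).card = (S.filter fun x => tl x = D v).card := by
    apply Finset.card_bij (fun w _ => D w)
    · intro w hw
      rw [mem_filter, mem_lift] at hw
      rw [mem_filter]
      exact ⟨hw.1, by rw [tl_D, hw.2]⟩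
    · intro w hw w' hw' h
      rw [mem_filter] at hw hw'
      apply D_inj _ h
      have e1 : w 1 = v 0 := by rw [← hw.2]; rfl
      have e2 : w' 1 = v 0 := by rw [← hw'.2]; rfl
      have h3 := congrFun h 0
      unfold D at h3
      have h4 : w 1 - w 0 = w' 1 - w' 0 := h3
      rw [e1, e2] at h4
      exact sub_right_injective h4
    · intro x hx
      rw [mem_filter] at hx
      refine ⟨mk (v 0 - x 0) x, ?_, (mk_spec _ _).2⟩
      rw [mem_filter]
      refine ⟨mk_mem_lift hx.1, ?_⟩
      rw [tl_mk, sub_add_cancel]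
      exact (eq_mk rfl hx.2.symm).symm
  rw [h1, h2]
  exact hS (D v)

lemma shift_all {Q : ZMod m → Prop} (h : ∀ x, Q x ↔ Q (x + 1)) : ∀ x y, Q x ↔ Q y := by
  have h1 : ∀ (n : ℕ) x, Q x ↔ Q (x + n) := by
    intro n
    induction n with
    | zero => intro x; simp
    | succ n ih =>
      intro x
      rw [ih x, h (x + n)]
      push_cast
      rw [add_assoc]
  intro x y
  have := h1 (y - x).val x
  rw [ZMod.natCast_zmod_val, add_sub_cancel] at this
  exact this

theorem conn_lift {r : ℕ} {S : Finset (Fin (r + 1) → ZMod m)} (hS : Conn S) : Conn (lift S) := by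
  intro P hP
  -- work downstairs
  obtain ⟨T, hT⟩ : ∃ T : (Fin r → ZMod m) → ZMod m → ZMod m → ZMod m → Prop,
      T = fun d g b h => P (mk b d) g h := ⟨_, rfl⟩
  have hinv : ∀ x ∈ S, ∀ g b h, T (ini x) g b h ↔ T (tl x) (g + 1) (b + x 0) (h + b) := by
    intro x hx g b h
    have h1 := hP (mk b x) (mk_mem_lift hx) g h
    rw [ini_mk, tl_mk, (mk_spec b x).1] at h1
    rw [hT]
    exact h1
  suffices H : ∀ x ∈ S, ∀ x' ∈ S, ∀ g b h g' b' h', T (ini x) g b h → T (ini x') g' b' h' by
    intro w hw w' hw' g h g' h' h1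
    have e1 : ini w = mk (w 0) (ini (D w)) := eq_mk rfl (ini_D w).symm
    have e2 : ini w' = mk (w' 0) (ini (D w')) := eq_mk rfl (ini_D w').symm
    rw [e1] at h1
    rw [e2]
    have := H (D w) (mem_lift.1 hw) (D w') (mem_lift.1 hw') g (w 0) h g' (w' 0) h'
    rw [hT] at this
    exact this h1
  intro x0 hx0
  -- Step 1
  have step1 : ∀ x ∈ S, ∀ g b, ∃ c, ∀ h, (T (ini x) g b h ↔ T (ini x0) 0 0 (h - c)) := by
    intro x hx g b
    apply hS (fun d g b => ∃ c, ∀ h, (T d g b h ↔ T (ini x0) 0 0 (h - c))) _ x0 hx0 x hx 0 0 g b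
    · exact ⟨0, fun h => by rw [sub_zero]⟩
    · intro w hw g b
      constructor
      · rintro ⟨c, hc⟩
        refine ⟨c + b, fun h => ?_⟩
        have h1 := hinv w hw g b (h - b)
        rw [sub_add_cancel] at h1
        rw [← h1, hc]
        rw [sub_sub, add_comm b c]
      · rintro ⟨c, hc⟩
        refine ⟨c - b, fun h => ?_⟩
        rw [hinv w hw g b h, hc]
        rw [show h + b - c = h - (c - b) by ring]
  -- Step 2
  obtain ⟨t0, ht0⟩ := step1 x0 hx0 0 1
  have step2 : ∀ x ∈ S, ∀ g b, ∀ h, (T (ini x) g (b + 1) h ↔ T (ini x) g b (h - (t0 + g))) := by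
    intro x hx g b
    apply hS (fun d g b => ∀ h, (T d g (b + 1) h ↔ T d g b (h - (t0 + g)))) _ x0 hx0 x hx 0 0 g b
    · intro h
      rw [zero_add, add_zero]
      exact ht0 h
    · intro w hw g b
      have e1 : ∀ h, T (tl w) (g + 1) (b + w 0 + 1) h ↔ T (ini w) g (b + 1) (h - (b + 1)) := by
        intro h
        have h1 := hinv w hw g (b + 1) (h - (b + 1))
        rw [sub_add_cancel, show b + 1 + w 0 = b + w 0 + 1 by ring] at h1
        exact h1.symm
      have e2 : ∀ h, T (tl w) (g + 1) (b + w 0) h ↔ T (ini w) g b (h - b) := by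
        intro h
        have h1 := hinv w hw g b (h - b)
        rw [sub_add_cancel] at h1
        exact h1.symm
      constructor
      · intro H h
        rw [e1, e2, H]
        rw [show h - (b + 1) - (t0 + g) = h - (t0 + (g + 1)) - b by ring]
      · intro H h
        have h1 := H (h + (b + 1))
        rw [e1, e2] at h1
        rw [show h + (b + 1) - (b + 1) = h by ring,
          show h + (b + 1) - (t0 + (g + 1)) - b = h - (t0 + g) by ring] at h1
        exact h1
  -- Step 3
  obtain ⟨u0, hu0⟩ := step1 x0 hx0 1 0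
  have step3 : ∀ x ∈ S, ∀ g b, ∀ h, (T (ini x) (g + 1) b h ↔ T (ini x) g b (h - u0)) := by
    intro x hx g b
    apply hS (fun d g b => ∀ h, (T d (g + 1) b h ↔ T d g b (h - u0))) _ x0 hx0 x hx 0 0 g b
    · intro h
      rw [zero_add]
      exact hu0 h
    · intro w hw g b
      have e1 : ∀ h, T (tl w) (g + 1 + 1) (b + w 0) h ↔ T (ini w) (g + 1) b (h - b) := by
        intro h
        have h1 := hinv w hw (g + 1) b (h - b)
        rw [sub_add_cancel] at h1
        exact h1.symm
      have e2 : ∀ h, T (tl w) (g + 1) (b + w 0) h ↔ T (ini w) g b (h - b) := by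
        intro h
        have h1 := hinv w hw g b (h - b)
        rw [sub_add_cancel] at h1
        exact h1.symm
      constructor
      · intro H h
        rw [e1, e2, H]
        rw [show h - b - u0 = h - u0 - b by ring]
      · intro H h
        have h1 := H (h + b)
        rw [e1, e2] at h1
        rw [show h + b - b = h by ring, show h + b - u0 - b = h - u0 by ring] at h1
        exact h1
  -- Step 4
  have step4 : ∀ h h', (T (ini x0) 0 0 h ↔ T (ini x0) 0 0 h') := by
    apply shift_all
    intro h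
    have a1 := step2 x0 hx0 (0 + 1) 0 (h + u0 + t0 + 1)
    have a2 := step3 x0 hx0 0 (0 + 1) (h + u0 + t0 + 1)
    have a3 := step2 x0 hx0 0 0 (h + u0 + t0 + 1 - u0)
    have a4 := step3 x0 hx0 0 0 (h + u0 + t0 + 1 - (t0 + (0 + 1)))
    rw [show h + u0 + t0 + 1 - u0 - (t0 + 0) = h + 1 by ring] at a3
    rw [show h + u0 + t0 + 1 - (t0 + (0 + 1)) - u0 = h by ring] at a4
    rw [← a4, ← a1, a2, a3]
  have step5 : ∀ x ∈ S, ∀ g b, ∀ h h', (T (ini x) g b h ↔ T (ini x) g b h') := by
    intro x hx g b h h'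
    obtain ⟨c, hc⟩ := step1 x hx g b
    rw [hc, hc]
    exact step4 _ _
  intro x' hx' g b h g' b' h' h1
  apply hS (fun d g b => ∀ h, T d g b h) _ x0 hx0 x' hx' g b g' b' (fun h2 => ?_) h'
  · intro w hw g b
    constructor
    · intro H h
      have h1 := hinv w hw g b (h - b)
      rw [sub_add_cancel] at h1
      exact h1.1 (H _)
    · intro H h
      exact (hinv w hw g b h).2 (H _)
  · exact (step5 x0 hx0 g b h h2).1 h1

/-- words with all letters equal -/
def loops (r : ℕ) (T : Finset (ZMod m)) : Finset (Fin (r + 1) → ZMod m) :=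
  T.image fun a => fun _ => a

lemma mem_loops {r : ℕ} {T : Finset (ZMod m)} {w : Fin (r + 1) → ZMod m} :
    w ∈ loops r T ↔ ∃ a ∈ T, (fun _ => a) = w := by simp [loops]

lemma card_loops (r : ℕ) (T : Finset (ZMod m)) : (loops r T).card = T.card := by
  apply card_image_of_injective
  intro a b h
  exact congrFun h 0

lemma bal_union {r : ℕ} {S S' : Finset (Fin (r + 1) → ZMod m)} (h : Disjoint S S') (hS : Bal S)
    (hS' : Bal S') : Bal (S ∪ S') := by
  intro v
  rw [filter_union, filter_union, card_union_of_disjoint, card_union_of_disjoint, hS v, hS' v]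
  · exact disjoint_filter_filter h
  · exact disjoint_filter_filter h

lemma bal_loops (r : ℕ) (T : Finset (ZMod m)) : Bal (loops r T) := by
  intro v
  congr 1
  apply filter_congr
  intro w hw
  obtain ⟨a, -, rfl⟩ := mem_loops.1 hw
  rfl

lemma disjoint_loops {r : ℕ} {S : Finset (Fin (r + 1) → ZMod m)}
    (hS : (0 : Fin (r + 1) → ZMod m) ∉ S) (T : Finset (ZMod m)) :
    Disjoint (lift S) (loops (r + 1) T) := by
  rw [Finset.disjoint_left]
  intro w hw hw'
  obtain ⟨a, -, rfl⟩ := mem_loops.1 hw'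
  rw [mem_lift] at hw
  apply hS
  convert hw using 1
  funext i
  simp [D]

theorem good_step {r : ℕ} {S : Finset (Fin (r + 1) → ZMod m)} (hS : Good S) (T : Finset (ZMod m))
    (hT : (0 : ZMod m) ∉ T) : Good (lift S ∪ loops (r + 1) T) := by
  obtain ⟨x, hx, hx0⟩ := hS.visit
  have hini : ∀ a : ZMod m, ini (mk a x) = fun _ => a := by
    intro a
    rw [ini_mk, hx0, mk_zero]
  refine ⟨bal_union (disjoint_loops hS.zero T) (bal_lift hS.bal) (bal_loops _ _), ?_, ?_, ?_⟩
  · intro P hP
    have h1 := conn_lift hS.conn P (fun w hw => hP w (mem_union_left _ hw))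
    have h2 : ∀ w ∈ lift S ∪ loops (r + 1) T, ∃ w' ∈ lift S, ini w = ini w' := by
      intro w hw
      rcases mem_union.1 hw with h | h
      · exact ⟨w, h, rfl⟩
      · obtain ⟨a, -, rfl⟩ := mem_loops.1 h
        exact ⟨mk a x, mk_mem_lift hx, (hini a).symm⟩
    intro w hw w' hw' g h g' h'
    obtain ⟨v, hv, e⟩ := h2 w hw
    obtain ⟨v', hv', e'⟩ := h2 w' hw'
    rw [e, e']
    exact h1 v hv v' hv' g h g' h'
  · rw [mem_union]
    rintro (h | h)
    · rw [mem_lift] at h
      apply hS.zero
      convert h using 1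
      funext i
      simp [D]
    · obtain ⟨a, ha, h⟩ := mem_loops.1 h
      have := congrFun h 0
      simp only [Pi.zero_apply] at this
      rw [this] at ha
      exact hT ha
  · exact ⟨mk 0 x, mem_union_left _ (mk_mem_lift hx), hini 0⟩

end Pool.Agent.T2H45
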