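import Mathlib

/-!
# Infinite words, morphisms, class P
-/

set_option autoImplicit false

namespace Pool.Agent.T2H45.Pal

/-- The image of a finite word under the morphism with letter images `f`. -/
def ap {α β : Type} (f : α → List β) (w : List α) : List β := w.flatMap f

/-- The factor of length `n` at position `i` of an infinite word. -/
def seg {α : Type} (u : ℕ → α) (i n : ℕ) : List α := (List.range n).map (fun j => u (i + j))

/-- The language of an infinite word. -/
def language {α : Type} (u : ℕ → α) : Set (List α) := {w | ∃ i n : ℕ, w = seg u i n}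

/-- `f(v) = y` for infinite words `v`, `y`: the images of the prefixes of `v` are prefixes of `y`,
and their lengths are unbounded. -/
def MapsTo {α β : Type} (f : α → List β) (v : ℕ → α) (y : ℕ → β) : Prop :=
  (∀ n : ℕ, ap f (seg v 0 n) = seg y 0 (ap f (seg v 0 n)).length) ∧
    ∀ m : ℕ, ∃ n : ℕ, m ≤ (ap f (seg v 0 n)).length

/-- A morphism is primitive: for some `k`, every letter occurs in the `k`-th iterated image of every
letter. -/
def IsPrimitive {α : Type} (f : α → List α) : Prop := ∃ k : ℕ, ∀ a b : α, b ∈ (ap f)^[k] [a]

/-- An infinite word is palindromic: infinitely many distinct palindromes are factors of it. -/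
def IsPalindromic {α : Type} (u : ℕ → α) : Prop := {w | w ∈ language u ∧ w.reverse = w}.Infinite

/-- Class P: for some palindrome `p`, for every letter `a`, `p` is an initial factor of `f(a)` and
`f(a) p` is a palindrome. -/
def ClassP {α β : Type} (f : α → List β) : Prop :=
  ∃ p : List β, p.reverse = p ∧ ∀ a : α, p <+: f a ∧ (f a ++ p).reverse = f a ++ p

/-- Two morphisms are conjugate. -/
def Conj {α β : Type} (f g : α → List β) : Prop :=
  ∃ w : List β, (∀ a, f a ++ w = w ++ g a) ∨ (∀ a, g a ++ w = w ++ f a)

/-- Conjugate to a morphism of class P. -/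
def ClassP' {α β : Type} (f : α → List β) : Prop := ∃ g : α → List β, ClassP g ∧ Conj f g

end Pool.Agent.T2H45.Pal
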