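import Pool.Agent.T2H45.PalZ

set_option autoImplicit false

namespace Pool.Agent.T2H45.Pal

section basic

variable {α β : Type}

lemma seg_shift {u : ℕ → α} {i i' n : ℕ} (h : seg u i n = seg u i' n) :
    ∀ j < n, u (i + j) = u (i' + j) := by
  intro j hj
  have h1 : (seg u i n)[j]'(by simpa using hj) = (seg u i' n)[j]'(by simpa using hj) := by
    simp only [h]
  simpa using h1

lemma seg_rev {u : ℕ → α} {i n : ℕ} (h : (seg u i n).reverse = seg u i n) :
    ∀ j < n, u (i + j) = u (i + (n - 1 - j)) := by
  intro j hj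
  have h1 : (seg u i n).reverse[j]'(by simpa using hj) = (seg u i n)[j]'(by simpa using hj) := by
    simp only [h]
  rw [List.getElem_reverse] at h1
  simp only [seg_getElem, seg_length] at h1
  exact h1.symm

lemma seg_split {u : ℕ → α} {i n : ℕ} {A B : List α} (h : A ++ B = seg u i n) :
    A = seg u i A.length ∧ B = seg u (i + A.length) B.length := by
  have hn : n = A.length + B.length := by
    have := congrArg List.length h
    simp only [List.length_append, seg_length] at this
    omega
  rw [hn, seg_add] at h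
  exact List.append_inj h (by simp)

lemma ap_reverse {f : α → List β} (h : ∀ a, (f a).reverse = f a) (w : List α) :
    (ap f w).reverse = ap f w.reverse := by
  induction w with
  | nil => rfl
  | cons a w ih => rw [ap_cons, List.reverse_append, ih, h, List.reverse_cons, ap_append,
      ap_singleton]

lemma iterate_ap (f : α → List α) (n : ℕ) (w : List α) :
    (ap f)^[n] w = ap (fun a => (ap f)^[n] [a]) w := by
  induction n with
  | zero =>
    simp only [Function.iterate_zero, id]
    exact (ap_pure w).symm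
  | succ n ih =>
    rw [Function.iterate_succ_apply', ih, ap_ap]
    apply ap_congr
    intro a
    rw [Function.iterate_succ_apply']

end basic

/-! ### Factors of `z` -/

lemma z_one : z 1 = 0 := by
  have := z_spec 0 1 (by norm_num)
  rw [z_zero] at this
  exact this

lemma z_two : z 2 = 2 := by
  have := z_spec 0 2 (by norm_num)
  rw [z_zero] at this
  exact this

lemma block_mem (c : Fin 3) : ζ c ∈ language z := by
  have : ∃ n, z n = c := by
    fin_cases c
    · exact ⟨1, z_one⟩
    · exact ⟨0, z_zero⟩
    · exact ⟨2, z_two⟩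
  obtain ⟨n, rfl⟩ := this
  exact ⟨16 * n, 16, (seg_block n).symm⟩

lemma mem_of_block {w : List (Fin 3)} (c : Fin 3) (h : w <:+: ζ c) : w ∈ language z :=
  language_infix (block_mem c) h

lemma sandwich_mem {s c : Fin 3} (h : s ≠ c) : [s, c, s] ∈ language z := by
  have key : ∀ s c : Fin 3, s ≠ c → ∃ d, [s, c, s] <:+: ζ d := by decide
  obtain ⟨d, hd⟩ := key s c h
  exact mem_of_block d hd

lemma sq_mem : [2, 0, 1, 2, 0, 1] ∈ language z := mem_of_block 0 (by decide)

/-- palindromes in `z` have odd length -/
lemma pal_z {w : List (Fin 3)} (hw : w ∈ language z) (h : w.reverse = w) : w = [] ∨ Odd w.length := by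
  obtain ⟨i, n, rfl⟩ := hw
  rw [seg_length]
  rcases Nat.even_or_odd' n with ⟨k, hk | hk⟩
  · rcases Nat.eq_zero_or_pos k with h0 | h0
    · left; rw [hk, h0]; simp
    · exfalso
      have := seg_rev h (k - 1) (by omega)
      rw [show n - 1 - (k - 1) = k - 1 + 1 by omega, ← add_assoc] at this
      exact z_ne _ this
  · right; exact ⟨k, hk⟩

lemma sq_pal_z {w : List (Fin 3)} (hw : w ++ w ∈ language z) (h : w.reverse = w) : w = [] := by
  rcases pal_z hw (by rw [List.reverse_append, h]) with h1 | h1
  · exact (List.append_eq_nil_iff.1 h1).1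
  · rw [List.length_append] at h1
    exact absurd h1 (by rw [Nat.not_odd_iff_even]; exact ⟨_, rfl⟩)

/-- there is no factor `p t p t p` with palindromes `p`, `t` and nonempty `p` -/
lemma no_sym {p t : List (Fin 3)} (hp : p.reverse = p) (ht : t.reverse = t)
    (h : p ++ t ++ (p ++ t ++ p) ∈ language z) : p = [] := by
  by_contra hne
  have hpm : p ∈ language z := language_infix h ⟨p ++ t ++ (p ++ t), [], by simp⟩
  obtain ⟨k, hk⟩ : Odd p.length := by
    rcases pal_z hpm hp with h1 | h1
    · exact absurd h1 hne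
    · exact h1
  obtain ⟨i, n, hn⟩ := h
  have hlen : n = 3 * p.length + 2 * t.length := by
    have := congrArg List.length hn
    simp only [List.length_append, seg_length] at this
    omega
  have hW : (seg z i n).reverse = seg z i n := by
    rw [← hn]
    simp only [List.reverse_append, hp, ht, List.append_assoc]
  obtain ⟨e1, e2⟩ := seg_split hn
  have hn' : p ++ t ++ p ++ (t ++ p) = seg z i n := by
    rw [← hn]; simp only [List.append_assoc]
  obtain ⟨e3, -⟩ := seg_split hn'
  have e4 := seg_shift (e2.symm.trans e3)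
  have e5 := seg_rev hW
  simp only [List.length_append] at e4
  apply no_B (p.length + t.length) (by omega) (i + (p.length + t.length) + k) (by omega)
  · intro j hj
    have := e5 (p.length + t.length + k + j) (by omega)
    rw [show i + (p.length + t.length) + k + j = i + (p.length + t.length + k + j) by omega, this]
    congr 1
    omega
  · intro j hj1 hj2
    have := e4 (k + j) (by omega)
    rw [show i + (p.length + t.length) + k + j = i + (p.length + t.length) + (k + j) by omega,
      this]
    congr 1
    omega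

/-- long squares have even period -/
lemma sq_odd {w : List (Fin 3)} (hw : w ++ w ∈ language z) (h : Odd w.length) : w.length ≤ 19 := by
  by_contra hcon
  obtain ⟨i, n, hn⟩ := hw
  obtain ⟨e1, e2⟩ := seg_split hn
  have e3 := seg_shift (e1.symm.trans e2)
  have := square_dvd i w.length (by omega) (fun k hk => by
    rw [e3 k hk]
    congr 1
    omega)
  obtain ⟨a, ha⟩ := this
  rw [ha] at h
  exact absurd h (by rw [Nat.not_odd_iff_even]; exact ⟨8 * a, by ring⟩)

/-- the key property of `z` -/
lemma bounded_z (T : Fin 3 → List (Fin 3)) (hT : ∀ c, (T c).reverse = T c)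
    (hL : ∀ w ∈ language z, ap T w ∈ language z) (c : Fin 3) : (T c).length ≤ 19 := by
  by_cases h : ∃ d, T d = []
  · obtain ⟨d, hd⟩ := h
    by_cases hcd : c = d
    · rw [hcd, hd]; simp
    · have := hL _ (sandwich_mem hcd)
      have e : ap T [c, d, c] = T c ++ T c := by
        simp [ap, hd]
      rw [e] at this
      rw [sq_pal_z this (hT c)]; simp
  · push Not at h
    have hodd : ∀ d, Odd (T d).length := by
      intro d
      have hm : T d ∈ language z := by
        have h1 : [d] ∈ language z := by
          have key : ∀ d : Fin 3, ∃ e, [d] <:+: ζ e := by decide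
          obtain ⟨e, he⟩ := key d
          exact mem_of_block e he
        have := hL _ h1
        rwa [ap_singleton] at this
      rcases pal_z hm (hT d) with h1 | h1
      · exact absurd h1 (h d)
      · exact h1
    have h1 := hL _ sq_mem
    have e : ap T [2, 0, 1, 2, 0, 1] = (T 2 ++ T 0 ++ T 1) ++ (T 2 ++ T 0 ++ T 1) := by
      simp [ap]
    rw [e] at h1
    have h2 : Odd (T 2 ++ T 0 ++ T 1).length := by
      rw [List.length_append, List.length_append]
      exact ((hodd 2).add_odd (hodd 0)).add_odd (hodd 1)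
    have h3 := sq_odd h1 h2
    rw [List.length_append, List.length_append] at h3
    fin_cases c
    · show (T 0).length ≤ 19; omega
    · show (T 1).length ≤ 19; omega
    · show (T 2).length ≤ 19; omega

/-! ### Palindromes in `z` -/

lemma ζ_rev (w : List (Fin 3)) :
    [1, 0, 2, 0, 1] ++ (ap ζ w).reverse = ap ζ w.reverse ++ [1, 0, 2, 0, 1] := by
  induction w with
  | nil => rfl
  | cons c w ih =>
    have key : ∀ c : Fin 3, [1, 0, 2, 0, 1] ++ (ζ c).reverse = ζ c ++ [1, 0, 2, 0, 1] := by decide
    rw [ap_cons, List.reverse_append, ← List.append_assoc, ih, List.append_assoc, key,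
      List.reverse_cons, ap_append, ap_singleton, List.append_assoc]

lemma ζ_pal {w : List (Fin 3)} (hw : w ∈ language z) (h : w.reverse = w) :
    ap ζ w ++ [1, 0, 2, 0, 1] ∈ language z ∧
      (ap ζ w ++ [1, 0, 2, 0, 1]).reverse = ap ζ w ++ [1, 0, 2, 0, 1] := by
  constructor
  · obtain ⟨i, n, rfl⟩ := hw
    refine ⟨16 * i, 16 * n + 5, ?_⟩
    rw [ap_ζ_seg, seg_add]
    congr 1
    rw [← mul_add]
    apply List.ext_getElem
    · simp
    · intro j h1 h2
      rw [seg_getElem, marker' _ _ (by simpa using h2)]
      have key : ∀ j : Fin 5, [1, 0, 2, 0, 1][j] = (ζ 0).getD j 0 := by decide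
      exact key ⟨j, by simpa using h2⟩
  · rw [List.reverse_append]
    show [1, 0, 2, 0, 1] ++ (ap ζ w).reverse = _
    rw [ζ_rev, h]

/-! ### The word `u` -/

/-- coding -/
def π : Fin 3 → List (Fin 4) := ![[0, 1, 0], [0, 2, 0], [3]]

/-- deletion of the letter `0` -/
def δ : Fin 4 → List (Fin 3) := ![[], [0], [1], [2]]

/-- The primitive morphism. -/
def φ : Fin 4 → List (Fin 4) := ![
  [0,2,0,0,1,0,3],
  [0,1,0,0,2,0,3,0,1,0,0,2,0,3,0,1,0,0,2,0,0,1,0,3],
  [0,1,0,0,2,0,3,0,1,0,0,2,0,0,1,0,0,2,0,3,0,2,0,0,1,0],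
  [0,2,0,0,1,0,3,0,1,0,0,2,0,0,1,0,0,2,0,3,0,2,0,3,0,1,0,3,0,2,0,3,0,2,0,0,1,0]]

lemma φ_π (w : List (Fin 3)) : ap φ (ap π w) = ap π (ap ζ w) := by
  rw [ap_ap, ap_ap]
  apply ap_congr
  decide

lemma δ_π (w : List (Fin 3)) : ap δ (ap π w) = w := by
  rw [ap_ap]
  have : ap (fun a => ap δ (π a)) w = ap (fun a => [a]) w := by
    apply ap_congr
    decide
  rw [this, ap_pure]

lemma π_length (w : List (Fin 3)) : w.length ≤ (ap π w).length := by
  induction w with
  | nil => simp
  | cons c w ih =>
    have key : ∀ c : Fin 3, 1 ≤ (π c).length := by decide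
    rw [ap_cons, List.length_append, List.length_cons]
    have := key c
    omega

/-- The infinite word `u`, the image of `z` under the coding. -/
def u (i : ℕ) : Fin 4 := (ap π (seg z 0 (i + 1))).getD i 0

lemma U_agree {m n i : ℕ} (hmn : m ≤ n) (hi : i < (ap π (seg z 0 m)).length) :
    (ap π (seg z 0 n)).getD i 0 = (ap π (seg z 0 m)).getD i 0 := by
  obtain ⟨k, rfl⟩ := Nat.exists_eq_add_of_le hmn
  rw [seg_add, ap_append, List.getD_append _ _ _ _ hi]

lemma U_seg (n : ℕ) : seg u 0 (ap π (seg z 0 n)).length = ap π (seg z 0 n) := by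
  apply List.ext_getElem
  · simp
  · intro i h1 h2
    rw [seg_getElem, zero_add, ← List.getD_eq_getElem (d := 0)]
    unfold u
    have h3 : i < (ap π (seg z 0 (i + 1))).length := by
      have := π_length (seg z 0 (i + 1))
      rw [seg_length] at this
      omega
    rcases le_total n (i + 1) with h | h
    · exact U_agree h h2
    · exact (U_agree h h3).symm

lemma le_U (n : ℕ) : n ≤ (ap π (seg z 0 n)).length := by
  have := π_length (seg z 0 n)
  rwa [seg_length] at this

lemma φ_length (w : List (Fin 4)) : w.length ≤ (ap φ w).length := by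
  induction w with
  | nil => simp
  | cons c w ih =>
    have key : ∀ c : Fin 4, 1 ≤ (φ c).length := by decide
    rw [ap_cons, List.length_append, List.length_cons]
    have := key c
    omega

lemma fixed : MapsTo φ u u := by
  constructor
  · intro n
    obtain ⟨k, hk⟩ := Nat.exists_eq_add_of_le (le_U n)
    have h1 := U_seg n
    rw [hk, seg_add] at h1
    have h2 := congrArg (ap φ) h1
    rw [ap_append, φ_π, ap_ζ_seg, mul_zero, ← U_seg] at h2
    exact (seg_split h2).1
  · intro m
    refine ⟨m, ?_⟩
    have := φ_length (seg u 0 m)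
    rwa [seg_length] at this

lemma mem_u_iff {w : List (Fin 4)} : w ∈ language u ↔ ∃ n, w <:+: ap π (seg z 0 n) := by
  rw [mem_language_iff]
  constructor
  · rintro ⟨n, hn⟩
    refine ⟨n, hn.trans ?_⟩
    obtain ⟨k, hk⟩ := Nat.exists_eq_add_of_le (le_U n)
    rw [← U_seg n, hk, seg_add]
    exact List.infix_append' [] _ _
  · rintro ⟨n, hn⟩
    exact ⟨_, by rw [U_seg]; exact hn⟩

lemma ap_infix {α β : Type} (f : α → List β) {w w' : List α} (h : w <:+: w') :
    ap f w <:+: ap f w' := by
  obtain ⟨s, t, rfl⟩ := h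
  exact ⟨ap f s, ap f t, by rw [ap_append, ap_append]⟩

lemma π_mem {w : List (Fin 3)} (hw : w ∈ language z) : ap π w ∈ language u := by
  obtain ⟨n, hn⟩ := mem_language_iff.1 hw
  exact mem_u_iff.2 ⟨n, ap_infix π hn⟩

lemma δ_mem {w : List (Fin 4)} (hw : w ∈ language u) : ap δ w ∈ language z := by
  obtain ⟨n, hn⟩ := mem_u_iff.1 hw
  have := ap_infix δ hn
  rw [δ_π] at this
  exact mem_language_iff.2 ⟨n, this⟩

lemma no_zero2 (w : List (Fin 3)) : ¬ [0, 0] <+: ap π w := by
  rcases w with _ | ⟨c, w⟩
  · simp
  · rw [ap_cons]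
    fin_cases c <;> simp [π]

lemma no_zero3 (w : List (Fin 3)) : ¬ [0, 0, 0] <:+: ap π w := by
  induction w with
  | nil => simp
  | cons c w ih =>
    rw [ap_cons]
    have h2 := no_zero2 w
    generalize ap π w = R at ih h2
    fin_cases c <;> simp [π, List.infix_cons_iff, ih, h2]

lemma zero3 : [0, 0, 0] ∉ language u := by
  intro h
  obtain ⟨n, hn⟩ := mem_u_iff.1 h
  exact no_zero3 _ hn

lemma length_le {w : List (Fin 4)} (hw : w ∈ language u) :
    w.length ≤ 3 * (ap δ w).length + 2 := by
  obtain ⟨n, hn⟩ : ∃ n, n = w.length := ⟨_, rfl⟩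
  induction n using Nat.strong_induction_on generalizing w with
  | _ n ih =>
    rcases w with _ | ⟨a, _ | ⟨b, _ | ⟨c, w⟩⟩⟩
    · simp
    · simp
    · simp
    · have h1 : ¬ (a = 0 ∧ b = 0 ∧ c = 0) := by
        rintro ⟨rfl, rfl, rfl⟩
        exact zero3 (language_infix hw ⟨[], w, by simp⟩)
      have h2 : w ∈ language u := language_infix hw ⟨[a, b, c], [], by simp⟩
      have h3 := ih w.length (by rw [hn]; simp only [List.length_cons]; omega) h2 rfl
      have key : ∀ a b c : Fin 4, ¬ (a = 0 ∧ b = 0 ∧ c = 0) → 1 ≤ (ap δ [a, b, c]).length := by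
        decide
      have h4 := key a b c h1
      have e : ap δ (a :: b :: c :: w) = ap δ [a, b, c] ++ ap δ w := by
        rw [← ap_append]; rfl
      rw [e, List.length_append]
      simp only [List.length_cons]
      omega

/-! ### Morphisms of class P -/

lemma δ_pal {w : List (Fin 4)} (h : w.reverse = w) : (ap δ w).reverse = ap δ w := by
  rw [ap_reverse (by decide), h]

/-- a morphism of class P which preserves the language of `u` has bounded iterates -/
theorem core (ψ : Fin 4 → List (Fin 4)) (hP : ClassP ψ)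
    (hL : ∀ w ∈ language u, ap ψ w ∈ language u) (n : ℕ) (c : Fin 4) :
    ((ap ψ)^[n] [c]).length ≤ 59 := by
  obtain ⟨p, hp, hψ⟩ := hP
  -- the palindrome `p` is empty
  have hp0 : p = [] := by
    by_contra hne
    obtain ⟨t, ht⟩ := (hψ 0).1
    have htp : t.reverse = t := by
      have := (hψ 0).2
      rw [← ht] at this
      simp only [List.reverse_append, hp, List.append_assoc] at this
      have h2 := List.append_cancel_left this
      exact List.append_cancel_right h2
    have hW : p ++ t ++ (p ++ t ++ p) ∈ language u := by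
      have h1 : [0, 0, 2] ∈ language u := by
        have h2 : ap π [0, 1] ∈ language u := π_mem (mem_of_block 0 (by decide))
        exact language_infix h2 (by decide)
      obtain ⟨r, hr⟩ := (hψ 2).1
      have h2 := hL _ h1
      have e : ap ψ [0, 0, 2] = (p ++ t ++ (p ++ t ++ p)) ++ r := by
        simp [ap, ← ht, ← hr]
      rw [e] at h2
      exact language_infix h2 (List.infix_append' [] _ _)
    have hδ := δ_mem hW
    simp only [ap_append] at hδ
    have h1 : ap δ p = [] := no_sym (δ_pal hp) (δ_pal htp) hδ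
    rw [h1] at hδ
    simp only [List.nil_append, List.append_nil] at hδ
    have h2 : ap δ t = [] := sq_pal_z hδ (δ_pal htp)
    have h3 := length_le hW
    simp only [ap_append, h1, h2, List.append_nil, List.length_nil, mul_zero, zero_add,
      List.length_append] at h3
    have h4 : 0 < p.length := List.length_pos_iff.2 hne
    omega
  subst hp0
  have hpal : ∀ a, (ψ a).reverse = ψ a := by
    intro a
    have := (hψ a).2
    rwa [List.append_nil] at this
  -- iterates
  obtain ⟨τ, hτ⟩ : ∃ τ : Fin 4 → List (Fin 4), τ = fun a => (ap ψ)^[n] [a] := ⟨_, rfl⟩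
  have hit : ∀ w, (ap ψ)^[n] w = ap τ w := by
    intro w
    rw [hτ]
    exact iterate_ap ψ n w
  have hτL : ∀ w ∈ language u, ap τ w ∈ language u := by
    intro w hw
    rw [← hit]
    clear hit hτ
    induction n with
    | zero => exact hw
    | succ n ih =>
      rw [Function.iterate_succ_apply']
      exact hL _ ih
  have hτr : ∀ w : List (Fin 4), (ap τ w).reverse = ap τ w.reverse := by
    intro w
    rw [← hit, ← hit]
    clear hit hτ
    induction n with
    | zero => rfl
    | succ n ih =>
      rw [Function.iterate_succ_apply', Function.iterate_succ_apply', ap_reverse hpal, ih]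
  have hT := bounded_z (fun c => ap δ (ap τ (π c)))
    (fun c => by
      apply δ_pal
      rw [hτr]
      congr 1
      revert c
      decide)
    (fun w hw => by
      have := δ_mem (hτL _ (π_mem hw))
      rw [ap_ap, ap_ap] at this
      convert this using 2
      funext c
      rw [ap_ap]
      )
  have key : ∀ c : Fin 4, ∃ d : Fin 3, [c] <:+: π d := by decide
  obtain ⟨d, hd⟩ := key c
  have h1 : (ap δ (ap τ (π d))).length ≤ 19 := hT d
  have h2 : π d ∈ language u := by
    have h3 : [d] ∈ language z := by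
      have key : ∀ d : Fin 3, ∃ e, [d] <:+: ζ e := by decide
      obtain ⟨e, he⟩ := key d
      exact mem_of_block e he
    have := π_mem h3
    rwa [ap_singleton] at this
  have h3 := length_le (hτL _ h2)
  have h4 := (ap_infix τ hd).length_le
  rw [ap_singleton] at h4
  rw [hit, ap_singleton]
  omega

/-! ### Recurrence -/

lemma z_copy (k : ℕ) : ∀ m m' : ℕ, z m = z m' → ∀ j < 16 ^ k,
    z (16 ^ k * m + j) = z (16 ^ k * m' + j) := by
  induction k with
  | zero =>
    intro m m' h j hj
    have : j = 0 := by simpa using hj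
    subst this
    simpa using h
  | succ k ih =>
    intro m m' h j hj
    have h1 := ih m m' h (j / 16) (by
      rw [Nat.div_lt_iff_lt_mul (by norm_num), ← pow_succ]; exact hj)
    have e : ∀ m : ℕ, 16 ^ (k + 1) * m + j = 16 * (16 ^ k * m + j / 16) + j % 16 := by
      intro m
      have := Nat.div_add_mod j 16
      rw [pow_succ]
      generalize 16 ^ k = K at *
      have e2 : K * 16 * m = 16 * (K * m) := by ring
      omega
    rw [e m, e m', z_spec _ _ (Nat.mod_lt _ (by norm_num)), z_spec _ _ (Nat.mod_lt _ (by norm_num)),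
      h1]

lemma z_far (i n M : ℕ) : ∃ i', M ≤ i' ∧ seg z i' n = seg z i n := by
  obtain ⟨k, hk⟩ : ∃ k, i + n ≤ 16 ^ k :=
    ⟨i + n, (Nat.lt_pow_self (by norm_num)).le⟩
  have h0 : z (16 * M) = z 0 := by
    have := marker' M 0 (by norm_num)
    rw [add_zero] at this
    rw [this, z_zero]
    rfl
  refine ⟨16 ^ k * (16 * M) + i, ?_, ?_⟩
  · have h1 : 1 ≤ 16 ^ k := Nat.one_le_pow _ _ (by norm_num)
    have h2 : 1 * (16 * M) ≤ 16 ^ k * (16 * M) := Nat.mul_le_mul_right _ h1
    omega
  · apply List.ext_getElem
    · simp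
    · intro j h1 h2
      rw [seg_getElem, seg_getElem, add_assoc, z_copy k (16 * M) 0 h0 (i + j)
        (by have : j < n := by simpa using h1
            omega)]
      simp

lemma rec_u {s y : List (Fin 4)} (hs : s ∈ language u) (hy : y ∈ language u) :
    ∃ r, s ++ r ++ y ∈ language u := by
  obtain ⟨m, hm⟩ := mem_u_iff.1 hs
  obtain ⟨n, hn⟩ := mem_u_iff.1 hy
  obtain ⟨i, hi, h⟩ := z_far 0 n m
  obtain ⟨k, rfl⟩ := Nat.exists_eq_add_of_le hi
  have h1 : seg z 0 (m + k + n) = seg z 0 m ++ seg z m k ++ seg z 0 n := by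
    rw [seg_add, seg_add, zero_add, zero_add, h]
  obtain ⟨a, b, hab⟩ := hm
  obtain ⟨c, d, hcd⟩ := hn
  refine ⟨b ++ ap π (seg z m k) ++ c, mem_u_iff.2 ⟨m + k + n, a, d, ?_⟩⟩
  rw [h1, ap_append, ap_append, ← hab, ← hcd]
  simp only [List.append_assoc]

lemma conj_ap {α β : Type} {f g : α → List β} {w : List β} (h : ∀ a, f a ++ w = w ++ g a)
    (x : List α) : ap f x ++ w = w ++ ap g x := by
  induction x with
  | nil => simp
  | cons a x ih =>
    rw [ap_cons, ap_cons, List.append_assoc, ih, ← List.append_assoc, h, List.append_assoc]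

lemma conj_perm {α β : Type} {f g : α → List β} (h : Conj f g) (a : α) : (f a).Perm (g a) := by
  obtain ⟨w, hw | hw⟩ := h
  · have h1 : (f a ++ w).Perm (g a ++ w) := by
      rw [hw a]; exact List.perm_append_comm
    exact (List.perm_append_right_iff w).1 h1
  · have h1 : (g a ++ w).Perm (f a ++ w) := by
      rw [hw a]; exact List.perm_append_comm
    exact ((List.perm_append_right_iff w).1 h1).symm

lemma perm_ap {α β : Type} {f g : α → List β} (h : ∀ a, (f a).Perm (g a)) {x y : List α}
    (hxy : x.Perm y) : (ap f x).Perm (ap g y) := by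
  have h1 : (ap f x).Perm (ap g x) := by
    clear hxy
    induction x with
    | nil => exact List.Perm.refl _
    | cons a x ih => rw [ap_cons, ap_cons]; exact (h a).append ih
  exact h1.trans (hxy.flatMap_right g)

lemma perm_iterate {α : Type} {f g : α → List α} (h : ∀ a, (f a).Perm (g a)) (n : ℕ) (x : List α) :
    ((ap f)^[n] x).Perm ((ap g)^[n] x) := by
  induction n with
  | zero => exact List.Perm.refl _
  | succ n ih =>
    rw [Function.iterate_succ_apply', Function.iterate_succ_apply']
    exact perm_ap h ih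

lemma maps_language {f : Fin 4 → List (Fin 4)} {v : ℕ → Fin 4} (h : MapsTo f v v)
    {w : List (Fin 4)} (hw : w ∈ language v) : ap f w ∈ language v := by
  obtain ⟨n, hn⟩ := mem_language_iff.1 hw
  exact mem_language_iff.2 ⟨_, by rw [← h.1 n]; exact ap_infix f hn⟩

/-- If `ψ`, conjugate to the morphism `θ`, has a fixed point with the language of `u` then `θ`
preserves this language. -/
theorem conj_closed {ψ θ : Fin 4 → List (Fin 4)} (hc : Conj ψ θ) {v : ℕ → Fin 4}
    (hv : MapsTo ψ v v) (hL : language v = language u) (y : List (Fin 4)) (hy : y ∈ language u) :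
    ap θ y ∈ language u := by
  have hperm := conj_perm hc
  obtain ⟨w, hw⟩ := hc
  obtain ⟨n, hn⟩ := hv.2 w.length
  have hs : seg v 0 n ∈ language u := by rw [← hL]; exact ⟨0, n, rfl⟩
  obtain ⟨r, hr⟩ := rec_u hs hy
  obtain ⟨r', hr'⟩ := rec_u hr hs
  have h1 : ap ψ (seg v 0 n ++ r ++ y ++ r' ++ seg v 0 n) ∈ language u := by
    rw [← hL] at hr' ⊢
    exact maps_language hv hr'
  obtain ⟨x, hx⟩ : ∃ x, x = seg v 0 n ++ r := ⟨_, rfl⟩
  obtain ⟨x', hx'⟩ : ∃ x', x' = r' ++ seg v 0 n := ⟨_, rfl⟩
  have e1 : seg v 0 n ++ r ++ y ++ r' ++ seg v 0 n = x ++ (y ++ x') := by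
    rw [hx, hx']; simp only [List.append_assoc]
  rw [e1] at h1
  have l1 : w.length ≤ (ap θ x).length := by
    have := (perm_ap hperm (List.Perm.refl x)).length_eq
    rw [← this, hx, ap_append, List.length_append]
    omega
  have l2 : w.length ≤ (ap θ x').length := by
    have := (perm_ap hperm (List.Perm.refl x')).length_eq
    rw [← this, hx', ap_append, List.length_append]
    omega
  rcases hw with hw | hw
  · have h2 := conj_ap hw (x ++ (y ++ x'))
    rw [ap_append θ, ap_append θ] at h2
    obtain ⟨R, S, hRS, hS⟩ : ∃ R S, ap θ x' = R ++ S ∧ S.length = w.length := by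
      refine ⟨(ap θ x').take ((ap θ x').length - w.length),
        (ap θ x').drop ((ap θ x').length - w.length), (List.take_append_drop _ _).symm, ?_⟩
      rw [List.length_drop]; omega
    rw [hRS] at h2
    have h3 : ap ψ (x ++ (y ++ x')) ++ w = (w ++ ap θ x ++ ap θ y ++ R) ++ S := by
      rw [h2]; simp only [List.append_assoc]
    have h4 := (List.append_inj' h3 hS.symm).1
    rw [h4] at h1
    exact language_infix h1 ⟨w ++ ap θ x, R, rfl⟩
  · have h2 := conj_ap hw (x ++ (y ++ x'))
    rw [ap_append θ, ap_append θ] at h2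
    obtain ⟨R, S, hRS, hR⟩ : ∃ R S, ap θ x = R ++ S ∧ R.length = w.length := by
      refine ⟨(ap θ x).take w.length, (ap θ x).drop w.length, (List.take_append_drop _ _).symm, ?_⟩
      rw [List.length_take]; omega
    rw [hRS] at h2
    have h3 : R ++ (S ++ ap θ y ++ (ap θ x' ++ w)) = w ++ ap ψ (x ++ (y ++ x')) := by
      rw [← h2]; simp only [List.append_assoc]
    have h4 := (List.append_inj h3 hR).2
    rw [← h4] at h1
    exact language_infix h1 ⟨S, ap θ x' ++ w, rfl⟩

/-! ### Palindromes of `u` -/

/-- long palindromes of `z` -/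
def pal : ℕ → List (Fin 3)
  | 0 => [1]
  | n + 1 => ap ζ (pal n) ++ [1, 0, 2, 0, 1]

lemma pal_spec (n : ℕ) : pal n ∈ language z ∧ (pal n).reverse = pal n ∧ n ≤ (pal n).length := by
  induction n with
  | zero => exact ⟨mem_of_block 0 (by decide), rfl, Nat.zero_le _⟩
  | succ n ih =>
    obtain ⟨h1, h2, h3⟩ := ih
    obtain ⟨h4, h5⟩ := ζ_pal h1 h2
    refine ⟨h4, h5, ?_⟩
    have h6 : (pal n).length ≤ (ap ζ (pal n)).length := by
      generalize pal n = w
      induction w with
      | nil => simp
      | cons c w ih =>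
        rw [ap_cons, List.length_append, List.length_cons, ζ_length]
        omega
    show n + 1 ≤ (ap ζ (pal n) ++ [1, 0, 2, 0, 1]).length
    rw [List.length_append]
    simp only [List.length_cons, List.length_nil]
    omega

lemma palindromic : IsPalindromic u := by
  unfold IsPalindromic
  intro hfin
  obtain ⟨N, hN⟩ : ∃ N, ∀ w ∈ {w | w ∈ language u ∧ w.reverse = w}, w.length ≤ N := by
    obtain ⟨N, hN⟩ := (hfin.image List.length).bddAbove
    exact ⟨N, fun w hw => hN ⟨w, hw, rfl⟩⟩
  obtain ⟨h1, h2, h3⟩ := pal_spec (N + 1)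
  have h4 : (ap π (pal (N + 1))).reverse = ap π (pal (N + 1)) := by
    rw [ap_reverse (by decide), h2]
  have h5 := hN _ ⟨π_mem h1, h4⟩
  have h6 := π_length (pal (N + 1))
  omega

lemma primitive : IsPrimitive φ := by
  refine ⟨1, ?_⟩
  show ∀ a b, b ∈ ap φ [a]
  decide

lemma not_primitive {f : Fin 4 → List (Fin 4)} (h : ∀ n c, ((ap f)^[n] [c]).length ≤ 59) :
    ¬ IsPrimitive f := by
  rintro ⟨k, hk⟩
  have h1 : ∀ a, 4 ≤ ((ap f)^[k] [a]).length := by
    intro a
    have h2 : (Finset.univ : Finset (Fin 4)) ⊆ ((ap f)^[k] [a]).toFinset := by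
      intro b _
      rw [List.mem_toFinset]
      exact hk a b
    have h3 := Finset.card_le_card h2
    have h4 := List.toFinset_card_le ((ap f)^[k] [a])
    simp only [Finset.card_univ, Fintype.card_fin] at h3
    omega
  obtain ⟨τ, hτ⟩ : ∃ τ : Fin 4 → List (Fin 4), τ = fun a => (ap f)^[k] [a] := ⟨_, rfl⟩
  have hit : ∀ w, (ap f)^[k] w = ap τ w := by
    intro w
    rw [hτ]
    exact iterate_ap f k w
  have h2 : ∀ w : List (Fin 4), 4 * w.length ≤ (ap τ w).length := by
    intro w
    induction w with
    | nil => simp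
    | cons a w ih =>
      rw [ap_cons, List.length_append, List.length_cons]
      have := h1 a
      rw [hit, ap_singleton] at this
      omega
  have h3 := h (k + (k + k)) 0
  rw [Function.iterate_add_apply, Function.iterate_add_apply, hit, hit, hit] at h3
  have h4 := h2 (ap τ (ap τ [0]))
  have h5 := h2 (ap τ [0])
  have h6 := h2 [0]
  simp only [List.length_cons, List.length_nil] at h6
  omega

theorem final (ψ : Fin 4 → List (Fin 4)) (v : ℕ → Fin 4) (hP : ClassP' ψ) (hv : MapsTo ψ v v)
    (hL : language v = language u) (n : ℕ) (c : Fin 4) : ((ap ψ)^[n] [c]).length ≤ 59 := by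
  obtain ⟨θ, hθ, hc⟩ := hP
  have h1 := core θ hθ (fun w hw => conj_closed hc hv hL w hw) n c
  rw [(perm_iterate (conj_perm hc) n [c]).length_eq]
  exact h1

end Pool.Agent.T2H45.Pal
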