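import Pool.Agent.T2H45.PalDefs

/-!
# A word over three letters with few symmetric repetitions

The fixed point `z` of the 16-uniform morphism
`0 ↦ 1020120120102102`, `1 ↦ 1020120101210102`, `2 ↦ 1020101212021210`.
-/

set_option autoImplicit false

namespace Pool.Agent.T2H45.Pal

section basic

variable {α β γ : Type}

@[simp] lemma seg_length (u : ℕ → α) (i n : ℕ) : (seg u i n).length = n := by simp [seg]

@[simp] lemma seg_getElem (u : ℕ → α) (i n j : ℕ) (h : j < (seg u i n).length) :
    (seg u i n)[j] = u (i + j) := by simp [seg]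

lemma seg_add (u : ℕ → α) (i m n : ℕ) : seg u i (m + n) = seg u i m ++ seg u (i + m) n := by
  apply List.ext_getElem
  · simp
  · intro j h1 h2
    rw [List.getElem_append]
    split_ifs with h
    · simp
    · rw [seg_length] at h
      simp only [seg_getElem, seg_length]
      congr 1
      omega

lemma seg_succ (u : ℕ → α) (i n : ℕ) : seg u i (n + 1) = seg u i n ++ [u (i + n)] := by
  rw [seg_add]; simp [seg]

@[simp] lemma seg_zero (u : ℕ → α) (i : ℕ) : seg u i 0 = [] := by simp [seg]

lemma ap_append (f : α → List β) (w w' : List α) : ap f (w ++ w') = ap f w ++ ap f w' := by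
  simp [ap]

@[simp] lemma ap_nil (f : α → List β) : ap f [] = [] := rfl

@[simp] lemma ap_singleton (f : α → List β) (a : α) : ap f [a] = f a := by simp [ap]

lemma ap_cons (f : α → List β) (a : α) (w : List α) : ap f (a :: w) = f a ++ ap f w := by
  simp [ap]

lemma ap_ap (g : β → List γ) (f : α → List β) (w : List α) :
    ap g (ap f w) = ap (fun a => ap g (f a)) w := by
  induction w with
  | nil => rfl
  | cons a w ih => rw [ap_cons, ap_append, ih, ap_cons]

lemma ap_congr {f g : α → List β} (h : ∀ a, f a = g a) (w : List α) : ap f w = ap g w := by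
  have : f = g := funext h
  rw [this]

lemma ap_pure (w : List α) : ap (fun a => [a]) w = w := by
  induction w with
  | nil => rfl
  | cons a w ih => rw [ap_cons, ih]; rfl

/-- factors of factors -/
lemma language_infix {u : ℕ → α} {w w' : List α} (hw : w ∈ language u) (h : w' <:+: w) :
    w' ∈ language u := by
  obtain ⟨i, n, rfl⟩ := hw
  obtain ⟨s, t, h⟩ := h
  have hn : n = s.length + w'.length + t.length := by
    have := congrArg List.length h
    simp only [List.length_append, seg_length] at this
    omega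
  refine ⟨i + s.length, w'.length, ?_⟩
  rw [hn, seg_add, seg_add] at h
  have h1 := List.append_inj h (by simp)
  have h2 := List.append_inj h1.1 (by simp)
  exact h2.2

lemma mem_language_iff {u : ℕ → α} {w : List α} :
    w ∈ language u ↔ ∃ n, w <:+: seg u 0 n := by
  constructor
  · rintro ⟨i, n, rfl⟩
    refine ⟨i + n, seg u 0 i, [], ?_⟩
    rw [seg_add, zero_add, List.append_nil]
  · rintro ⟨n, h⟩
    exact language_infix ⟨0, n, rfl⟩ h

lemma language_right {u : ℕ → α} {w : List α} (hw : w ∈ language u) :
    ∃ c, w ++ [c] ∈ language u := by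
  obtain ⟨i, n, rfl⟩ := hw
  exact ⟨u (i + n), i, n + 1, (seg_succ u i n).symm⟩

end basic

/-! ### The word `z` -/

/-- The 16-uniform morphism. -/
def ζ : Fin 3 → List (Fin 3) := ![
  [1,0,2,0,1,2,0,1,2,0,1,0,2,1,0,2],
  [1,0,2,0,1,2,0,1,0,1,2,1,0,1,0,2],
  [1,0,2,0,1,0,1,2,1,2,0,2,1,2,1,0]]

/-- The fixed point of `ζ` which starts with `1`. -/
def z (n : ℕ) : Fin 3 := if h : n = 0 then 1 else (ζ (z (n / 16))).getD (n % 16) 0
termination_by n
decreasing_by exact Nat.div_lt_self (Nat.pos_of_ne_zero h) (by norm_num)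

lemma ζ_length (c : Fin 3) : (ζ c).length = 16 := by
  revert c; decide

lemma z_zero : z 0 = 1 := by rw [z]; simp

lemma z_spec (n j : ℕ) (hj : j < 16) : z (16 * n + j) = (ζ (z n)).getD j 0 := by
  by_cases h : 16 * n + j = 0
  · have hn : n = 0 := by omega
    have hj0 : j = 0 := by omega
    subst hn; subst hj0
    show z 0 = _
    rw [z_zero]
    rfl
  · rw [z]
    rw [dif_neg h]
    have h1 : (16 * n + j) / 16 = n := by omega
    have h2 : (16 * n + j) % 16 = j := by omega
    rw [h1, h2]

lemma seg_block (n : ℕ) : seg z (16 * n) 16 = ζ (z n) := by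
  apply List.ext_getElem
  · rw [seg_length, ζ_length]
  · intro j h1 h2
    rw [seg_getElem, z_spec n j (by simpa using h1), List.getD_eq_getElem]

lemma ap_ζ_seg (i n : ℕ) : ap ζ (seg z i n) = seg z (16 * i) (16 * n) := by
  induction n with
  | zero => simp
  | succ n ih =>
    rw [seg_succ, ap_append, ih, ap_singleton, ← seg_block, mul_add 16 i n, mul_add 16 n 1,
      mul_one, seg_add]

/-- letters of two consecutive blocks -/
def g (c d : Fin 3) (x : ℕ) : Fin 3 := (ζ c ++ ζ d).getD x 0

lemma z_pair (n x : ℕ) (hx : x < 32) : z (16 * n + x) = g (z n) (z (n + 1)) x := by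
  unfold g
  by_cases h : x < 16
  · rw [z_spec n x h, List.getD_append _ _ _ _ (by rw [ζ_length]; exact h)]
  · rw [List.getD_append_right _ _ _ _ (by rw [ζ_length]; omega), ζ_length]
    have : 16 * n + x = 16 * (n + 1) + (x - 16) := by omega
    rw [this, z_spec _ _ (by omega)]

lemma split16 (i : ℕ) : ∃ n j, j < 16 ∧ i = 16 * n + j := ⟨i / 16, i % 16, Nat.mod_lt _ (by norm_num),
  (Nat.div_add_mod i 16).symm⟩

lemma z_ne (i : ℕ) : z i ≠ z (i + 1) := by
  obtain ⟨n, j, hj, rfl⟩ := split16 i
  rw [z_pair n j (by omega), add_assoc, z_pair n (j + 1) (by omega)]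
  have key : ∀ c d : Fin 3, ∀ j : Fin 16, g c d j ≠ g c d (j + 1) := by decide
  exact key _ _ ⟨j, hj⟩

lemma radius8 (c : ℕ) (hc : 8 ≤ c) (h : ∀ t ≤ 8, z (c + t) = z (c - t)) : c % 16 = 10 := by
  obtain ⟨n, j, hj, hcj⟩ := split16 (c - 8)
  have key : ∀ c d : Fin 3, c ≠ d → ∀ j : Fin 16,
      (∀ t : Fin 9, g c d (j + 8 + t) = g c d (j + 8 - t)) → ((j : ℕ) + 8) % 16 = 10 := by decide
  have := key (z n) (z (n + 1)) (z_ne n) ⟨j, hj⟩ (fun t => by
    have ht := t.isLt
    have h1 := h t (by omega)
    have e1 : c + (t : ℕ) = 16 * n + (j + 8 + t) := by omega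
    have e2 : c - (t : ℕ) = 16 * n + (j + 8 - t) := by omega
    rw [e1, e2, z_pair _ _ (by omega), z_pair _ _ (by omega)] at h1
    exact h1)
  simp only at this
  omega

lemma marker (i : ℕ) (h : ∀ t < 5, z (i + t) = (ζ 0).getD t 0) : i % 16 = 0 := by
  obtain ⟨n, j, hj, rfl⟩ := split16 i
  have key : ∀ c d : Fin 3, ∀ j : Fin 16,
      (∀ t : Fin 5, g c d (j + t) = (ζ 0).getD t 0) → (j : ℕ) = 0 := by decide
  have := key (z n) (z (n + 1)) ⟨j, hj⟩ (fun t => by
    have ht := t.isLt
    have h1 := h t ht
    rw [add_assoc, z_pair _ _ (by omega)] at h1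
    exact h1)
  simp only at this
  omega

lemma marker' (n t : ℕ) (ht : t < 5) : z (16 * n + t) = (ζ 0).getD t 0 := by
  rw [z_spec _ _ (by omega)]
  have key : ∀ c : Fin 3, ∀ t : Fin 5, (ζ c).getD t 0 = (ζ 0).getD t 0 := by decide
  exact key _ ⟨t, ht⟩

/-- the period of a long square is divisible by 16 -/
lemma square_dvd (i L : ℕ) (hL : 20 ≤ L) (h : ∀ k < L, z (i + k) = z (i + k + L)) : 16 ∣ L := by
  obtain ⟨n, hn1, hn2⟩ : ∃ n, i ≤ 16 * n ∧ 16 * n ≤ i + 15 := ⟨(i + 15) / 16, by omega, by omega⟩
  have h1 : (16 * n + L) % 16 = 0 := by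
    apply marker
    intro t ht
    rw [← marker' n t ht]
    have := h (16 * n + t - i) (by omega)
    rw [show i + (16 * n + t - i) = 16 * n + t by omega] at this
    rw [this]
    congr 1
    omega
  omega

/-- there is no palindrome of length `2 ℓ + 1` with the period `ℓ` -/
theorem no_B : ∀ l : ℕ, 1 ≤ l → ∀ c : ℕ, l ≤ c →
    (∀ k ≤ l, z (c + k) = z (c - k)) → (∀ k, 1 ≤ k → k ≤ l → z (c + k) = z (c + k - l)) → False := by
  intro l
  induction l using Nat.strong_induction_on with
  | _ l ih =>
    intro hl c hc h1 h2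
    -- reflection about `c + l / 2`
    have hR : ∀ k, 1 ≤ k → k ≤ l → z (c + k) = z (c + (l - k)) := by
      intro k hk hkl
      rw [h2 k hk hkl, h1 (l - k) (by omega)]
      congr 1
      omega
    rcases Nat.even_or_odd' l with ⟨h, hh | hh⟩
    · by_cases hbig : 16 ≤ l
      · have r1 : c % 16 = 10 := radius8 c (by omega) (fun t ht => h1 t (by omega))
        have r2 : (c + h) % 16 = 10 := by
          apply radius8 (c + h) (by omega)
          intro t ht
          have := hR (h + t) (by omega) (by omega)
          rw [show c + h + t = c + (h + t) by omega, this]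
          congr 1
          omega
        obtain ⟨c', rfl⟩ : ∃ c', c = 16 * c' + 10 := ⟨c / 16, by omega⟩
        obtain ⟨l', rfl⟩ : ∃ l', l = 16 * l' := ⟨l / 16, by omega⟩
        have sym : ∀ a b : Fin 3, (∀ t : Fin 6, (ζ a).getD (5 + t) 0 = (ζ b).getD (15 - t) 0) →
            a = b := by decide
        have same : ∀ a b : Fin 3, (∀ t : Fin 6, (ζ a).getD (5 + t) 0 = (ζ b).getD (5 + t) 0) →
            a = b := by decide
        have p1 : ∀ k ≤ l', z (c' + k) = z (c' - k) := by
          intro k hk
          rcases Nat.eq_zero_or_pos k with h0 | h0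
          · rw [h0]; rfl
          apply sym
          intro t
          have ht := t.isLt
          rw [← z_spec _ _ (by omega), ← z_spec _ _ (by omega)]
          have := h1 (16 * k + 5 + t - 10) (by omega)
          rw [show 16 * c' + 10 + (16 * k + 5 + (t : ℕ) - 10) = 16 * (c' + k) + (5 + t) by omega,
            show 16 * c' + 10 - (16 * k + 5 + (t : ℕ) - 10) = 16 * (c' - k) + (15 - t) by omega]
            at this
          exact this
        refine ih l' (by omega) (by omega) c' (by omega) p1 ?_
        intro k hk hkl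
        apply same
        intro t
        have ht := t.isLt
        rw [← z_spec _ _ (by omega), ← z_spec _ _ (by omega)]
        have := h2 (16 * k + 5 + t - 10) (by omega) (by omega)
        rw [show 16 * c' + 10 + (16 * k + 5 + (t : ℕ) - 10) = 16 * (c' + k) + (5 + t) by omega,
          show 16 * (c' + k) + (5 + (t : ℕ)) - 16 * l' = 16 * (c' + k - l') + (5 + t) by omega]
          at this
        exact this
      · by_cases h8 : 8 ≤ l
        · have r1 : c % 16 = 10 := radius8 c (by omega) (fun t ht => h1 t (by omega))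
          obtain ⟨c', rfl⟩ : ∃ c', c = 16 * c' + 10 := ⟨c / 16, by omega⟩
          have key : ∀ a b : Fin 3, ∀ m : Fin 4,
              ¬ ∀ k : Fin 14, 10 ≤ 11 + (k : ℕ) - (8 + 2 * m) + 9 → (k : ℕ) + 1 ≤ 8 + 2 * m →
                (8 + 2 * (m : ℕ)) ≤ 11 + k → g a b (11 + k) = g a b (11 + k - (8 + 2 * m)) := by
            decide
          apply key (z c') (z (c' + 1)) ⟨h - 4, by omega⟩
          intro k _ hk hk2
          simp only at hk hk2 ⊢
          have hk' := k.isLt
          have := h2 (k + 1) (by omega) (by omega)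
          rw [show 16 * c' + 10 + ((k : ℕ) + 1) = 16 * c' + (11 + k) by omega,
            show 16 * c' + (11 + (k : ℕ)) - l = 16 * c' + (11 + k - (8 + 2 * (h - 4))) by omega,
            z_pair _ _ (by omega), z_pair _ _ (by omega)] at this
          exact this
        · obtain ⟨n, j, hj, hcj⟩ := split16 (c - l)
          have key : ∀ a b : Fin 3, ∀ j : Fin 16, ∀ m : Fin 3,
              ¬ ((∀ k : Fin 7, (k : ℕ) ≤ 2 + 2 * m →
                g a b (j + (2 + 2 * m) + k) = g a b (j + (2 + 2 * m) - k)) ∧
              (∀ k : Fin 7, 1 ≤ (k : ℕ) → (k : ℕ) ≤ 2 + 2 * m →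
                g a b (j + (2 + 2 * m) + k) = g a b (j + k))) := by
            decide
          apply key (z n) (z (n + 1)) ⟨j, hj⟩ ⟨h - 1, by omega⟩
          constructor
          · intro k hk
            simp only at hk ⊢
            have := h1 k (by omega)
            rw [show c + (k : ℕ) = 16 * n + (j + (2 + 2 * (h - 1)) + k) by omega,
              show c - (k : ℕ) = 16 * n + (j + (2 + 2 * (h - 1)) - k) by omega,
              z_pair _ _ (by omega), z_pair _ _ (by omega)] at this
            exact this
          · intro k hk0 hk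
            simp only at hk ⊢
            have := h2 k (by omega) (by omega)
            rw [show c + (k : ℕ) = 16 * n + (j + (2 + 2 * (h - 1)) + k) by omega,
              show 16 * n + (j + (2 + 2 * (h - 1)) + (k : ℕ)) - l = 16 * n + (j + k) by omega,
              z_pair _ _ (by omega), z_pair _ _ (by omega)] at this
            exact this
    · have := hR (h + 1) (by omega) (by omega)
      rw [show l - (h + 1) = h by omega] at this
      exact z_ne (c + h) this.symm

end Pool.Agent.T2H45.Pal
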