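import Pool.Agent.T2H45.Euler

set_option autoImplicit false

namespace Pool.Agent.T2H45

open Finset

/-- all letters but the last -/
def ini {A : Type*} {r : ℕ} (w : Fin (r + 1) → A) : Fin r → A := fun i => w i.castSucc

/-- all letters but the first -/
def tl {A : Type*} {r : ℕ} (w : Fin (r + 1) → A) : Fin r → A := fun i => w i.succ

theorem realize {E A : Type*} [Fintype E] [DecidableEq E] [DecidableEq A] {r : ℕ}
    (label : E → (Fin (r + 1) → A)) {n : ℕ} [NeZero n] (hn : Fintype.card E = n)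
    (hbal : ∀ v : Fin r → A, (univ.filter fun e => ini (label e) = v).card =
      (univ.filter fun e => tl (label e) = v).card)
    (hconn : ∀ P : (Fin r → A) → Prop, (∀ e, P (ini (label e)) ↔ P (tl (label e))) →
      ∀ e e', P (ini (label e)) → P (ini (label e'))) :
    ∃ f : ZMod n → E, Function.Bijective f ∧
      ∀ i (j : Fin (r + 1)), label (f i) j = label (f (i + (j : ℕ))) 0 := by
  classical
  obtain ⟨σ, hσ, hc⟩ := exists_circuit (fun e => ini (label e)) (fun e => tl (label e)) hbal hconn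
  have hne : Nonempty E := by
    rw [← Fintype.card_pos_iff, hn]
    exact Nat.pos_of_ne_zero (NeZero.ne n)
  obtain ⟨e0⟩ := hne
  have hcyc : σ.IsCycleOn (univ : Finset E) := by
    refine ⟨?_, fun x _ y _ => hc x y⟩
    simpa using σ.bijective
  have hper : ∀ t : ℕ, (σ ^ (t + n)) e0 = (σ ^ t) e0 := by
    intro t
    have h := hcyc.pow_card_apply (mem_univ e0)
    rw [Finset.card_univ, hn] at h
    rw [pow_add, Equiv.Perm.mul_apply, h]
  have hfper : Function.Periodic (fun t : ℕ => (σ ^ t) e0) n := hper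
  have hmod : ∀ t : ℕ, (σ ^ ((t : ZMod n).val)) e0 = (σ ^ t) e0 := by
    intro t
    rw [ZMod.val_natCast]
    exact hfper.map_mod_nat t
  have hval : ∀ (i : ZMod n) (j : ℕ), (σ ^ ((i + (j : ZMod n)).val)) e0 = (σ ^ (i.val + j)) e0 := by
    intro i j
    have : i + (j : ZMod n) = ((i.val + j : ℕ) : ZMod n) := by
      push_cast
      rw [ZMod.natCast_zmod_val]
    rw [this, hmod]
  have hstep : ∀ (t j : ℕ) (hj : j < r + 1), label ((σ ^ t) e0) ⟨j, hj⟩ =
      label ((σ ^ (t + j)) e0) 0 := by
    intro t j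
    induction j generalizing t with
    | zero => intro hj; rfl
    | succ j ih =>
      intro hj
      have h1 := congrFun (hσ ((σ ^ t) e0)) ⟨j, by omega⟩
      have h2 : label (σ ((σ ^ t) e0)) ⟨j, by omega⟩ = label ((σ ^ t) e0) ⟨j + 1, hj⟩ := h1
      rw [← h2]
      have h3 : σ ((σ ^ t) e0) = (σ ^ (t + 1)) e0 := by
        rw [pow_succ' σ t, Equiv.Perm.mul_apply]
      rw [h3, ih (t + 1) (by omega)]
      congr 3
      omega
  refine ⟨fun i => (σ ^ i.val) e0, ?_, ?_⟩
  · rw [Fintype.bijective_iff_surjective_and_card]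
    refine ⟨?_, by rw [ZMod.card, hn]⟩
    intro e
    obtain ⟨t, -, ht⟩ := hcyc.exists_pow_eq (mem_univ e0) (mem_univ e)
    exact ⟨(t : ZMod n), by simp only [hmod]; exact ht⟩
  · intro i j
    simp only [hval]
    exact hstep i.val j.val j.isLt

end Pool.Agent.T2H45
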