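import Pool.Agent.T2H45.Base

set_option autoImplicit false

namespace Pool.Agent.T2H45

open Finset

variable {m : ℕ} [NeZero m]

/-- a cyclic sequence in which every word of length `l` occurs at most `k` times and the
letters occur equally often -/
def SeqOK (m n l k : ℕ) [NeZero m] [NeZero n] : Prop :=
  ∃ a : ZMod n → ZMod m,
    (∀ w : Fin l → ZMod m, (univ.filter fun i : ZMod n => ∀ j : Fin l, a (i + (j : ℕ)) = w j).card ≤ k) ∧
    ∀ x : ZMod m, m * (univ.filter fun i : ZMod n => a i = x).card = n

/-- realization of a multiset of words -/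
theorem seqOK_of_label {E : Type} [Fintype E] [DecidableEq E] {r n k : ℕ} [NeZero n]
    (label : E → (Fin (r + 1) → ZMod m)) (hn : Fintype.card E = n)
    (hbal : ∀ v : Fin r → ZMod m, (univ.filter fun e => ini (label e) = v).card =
      (univ.filter fun e => tl (label e) = v).card)
    (hconn : ∀ P : (Fin r → ZMod m) → Prop, (∀ e, P (ini (label e)) ↔ P (tl (label e))) →
      ∀ e e', P (ini (label e)) → P (ini (label e')))
    (hk : ∀ w, (univ.filter fun e => label e = w).card ≤ k)
    (hlet : ∀ x : ZMod m, m * (univ.filter fun e => label e 0 = x).card = n) :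
    SeqOK m n (r + 1) k := by
  obtain ⟨f, hf, hl⟩ := realize label hn hbal hconn
  refine ⟨fun i => label (f i) 0, ?_, ?_⟩
  · intro w
    refine le_trans (le_of_eq ?_) (hk w)
    apply Finset.card_bij (fun i _ => f i)
    · intro i hi
      rw [mem_filter] at hi ⊢
      refine ⟨mem_univ _, ?_⟩
      funext j
      rw [hl i j]
      exact hi.2 j
    · intro i _ i' _ h
      exact hf.1 h
    · intro e he
      obtain ⟨i, rfl⟩ := hf.2 e
      rw [mem_filter] at he
      refine ⟨i, ?_, rfl⟩
      rw [mem_filter]
      refine ⟨mem_univ _, fun j => ?_⟩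
      show label (f (i + (j : ℕ))) 0 = w j
      rw [← hl i j, he.2]
  · intro x
    refine Eq.trans ?_ (hlet x)
    congr 1
    apply Finset.card_bij (fun i _ => f i)
    · intro i hi
      rw [mem_filter] at hi ⊢
      exact ⟨mem_univ _, hi.2⟩
    · intro i _ i' _ h
      exact hf.1 h
    · intro e he
      obtain ⟨i, rfl⟩ := hf.2 e
      rw [mem_filter] at he
      exact ⟨i, mem_filter.2 ⟨mem_univ _, he.2⟩, rfl⟩

lemma card_subtype_filter {r : ℕ} (S : Finset (Fin (r + 1) → ZMod m))
    (p : (Fin (r + 1) → ZMod m) → Prop) [DecidablePred p] :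
    (univ.filter fun e : {x // x ∈ S} => p e.1).card = (S.filter p).card := by
  apply Finset.card_bij (fun e _ => e.1)
  · intro e he
    rw [mem_filter] at he ⊢
    exact ⟨e.2, he.2⟩
  · intro e _ e' _ h
    exact Subtype.ext h
  · intro w hw
    rw [mem_filter] at hw
    exact ⟨⟨w, hw.1⟩, mem_filter.2 ⟨mem_univ _, hw.2⟩, rfl⟩

/-- realization of a set of words -/
theorem seqOK_of_set {r n : ℕ} [NeZero n] (S : Finset (Fin (r + 1) → ZMod m)) (hn : S.card = n)
    (hbal : Bal S) (hconn : Conn S)
    (hlet : ∀ x : ZMod m, m * (S.filter fun w => w 0 = x).card = n) : SeqOK m n (r + 1) 1 := by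
  apply seqOK_of_label (E := {x // x ∈ S}) (fun e => e.1)
  · rw [Fintype.card_coe, hn]
  · intro v
    rw [card_subtype_filter S (fun w => ini w = v), card_subtype_filter S (fun w => tl w = v)]
    exact hbal v
  · intro P hP e e' h
    exact hconn (fun v _ _ => P v) (fun w hw _ _ => hP ⟨w, hw⟩) e.1 e.2 e'.1 e'.2 0 0 0 0 h
  · intro w
    rw [card_subtype_filter S (fun v => v = w), card_le_one]
    intro a ha b hb
    rw [mem_filter] at ha hb
    rw [ha.2, hb.2]
  · intro x
    rw [card_subtype_filter S (fun w => w 0 = x)]
    exact hlet x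

theorem seqOK_mono_l {n l k : ℕ} [NeZero n] (h : SeqOK m n l k) : SeqOK m n (l + 1) k := by
  obtain ⟨a, h1, h2⟩ := h
  refine ⟨a, fun w => le_trans (card_le_card ?_) (h1 (fun j => w j.castSucc)), h2⟩
  intro i hi
  rw [mem_filter] at hi ⊢
  exact ⟨mem_univ _, fun j => hi.2 j.castSucc⟩

theorem seqOK_mono_k {n l k k' : ℕ} [NeZero n] (hk : k ≤ k') (h : SeqOK m n l k) :
    SeqOK m n l k' := by
  obtain ⟨a, h1, h2⟩ := h
  exact ⟨a, fun w => le_trans (h1 w) hk, h2⟩

/-- connectivity of the full graph -/
lemma full_conn {r : ℕ} (P : (Fin r → ZMod m) → Prop)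
    (hP : ∀ w : Fin (r + 1) → ZMod m, P (ini w) ↔ P (tl w)) : ∀ v v', P v ↔ P v' := by
  have key : ∀ v : Fin r → ZMod m, P v ↔ P 0 := by
    intro v
    -- after `t` steps the last `t` letters vanish
    have h : ∀ t ≤ r, ∃ u : Fin r → ZMod m, (P v ↔ P u) ∧
        ∀ i : Fin r, r - t ≤ i.val → u i = 0 := by
      intro t
      induction t with
      | zero =>
        intro _
        refine ⟨v, Iff.rfl, fun i hi => ?_⟩
        have := i.isLt
        omega
      | succ t ih =>
        intro ht
        obtain ⟨u, hu1, hu2⟩ := ih (by omega)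
        refine ⟨tl (Fin.snoc (α := fun _ => ZMod m) u 0), ?_, ?_⟩
        · rw [hu1, ← hP]
          have : ini (Fin.snoc (α := fun _ => ZMod m) u 0) = u := by
            funext i
            unfold ini
            rw [Fin.snoc_castSucc]
          rw [this]
        · intro i hi
          unfold tl
          by_cases h : i.val + 1 < r
          · have e : i.succ = (⟨i.val + 1, h⟩ : Fin r).castSucc := rfl
            rw [e, Fin.snoc_castSucc]
            apply hu2
            show r - t ≤ i.val + 1
            omega
          · have e : i.succ = Fin.last r := by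
              apply Fin.ext
              have := i.isLt
              show i.val + 1 = r
              omega
            rw [e, Fin.snoc_last]
    obtain ⟨u, hu1, hu2⟩ := h r le_rfl
    rw [hu1]
    have : u = 0 := by
      funext i
      exact hu2 i (by omega)
    rw [this]
  intro v v'
  rw [key v, key v']

lemma card_ini (r : ℕ) (v : Fin r → ZMod m) :
    (univ.filter fun w : Fin (r + 1) → ZMod m => ini w = v).card = m := by
  have : (univ.filter fun w : Fin (r + 1) → ZMod m => ini w = v) =
      (univ : Finset (ZMod m)).image (fun x => (Fin.snoc (α := fun _ => ZMod m) v x : Fin (r + 1) → ZMod m)) := by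
    ext w
    rw [mem_filter, mem_image]
    constructor
    · rintro ⟨-, rfl⟩
      refine ⟨w (Fin.last r), mem_univ _, ?_⟩
      exact Fin.snoc_init_self w
    · rintro ⟨x, -, rfl⟩
      refine ⟨mem_univ _, ?_⟩
      funext i
      unfold ini
      rw [Fin.snoc_castSucc]
  rw [this, card_image_of_injective, card_univ, ZMod.card]
  intro x y h
  have := congrFun h (Fin.last r)
  simpa using this

lemma card_tl (r : ℕ) (v : Fin r → ZMod m) :
    (univ.filter fun w : Fin (r + 1) → ZMod m => tl w = v).card = m := by
  have : (univ.filter fun w : Fin (r + 1) → ZMod m => tl w = v) =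
      (univ : Finset (ZMod m)).image (fun x => (Fin.cons (α := fun _ => ZMod m) x v : Fin (r + 1) → ZMod m)) := by
    ext w
    rw [mem_filter, mem_image]
    constructor
    · rintro ⟨-, rfl⟩
      refine ⟨w 0, mem_univ _, ?_⟩
      exact Fin.cons_self_tail w
    · rintro ⟨x, -, rfl⟩
      refine ⟨mem_univ _, ?_⟩
      funext i
      unfold tl
      rw [Fin.cons_succ]
  rw [this, card_image_of_injective, card_univ, ZMod.card]
  intro x y h
  have := congrFun h 0
  simpa using this

lemma card_first (r : ℕ) (x : ZMod m) :
    (univ.filter fun w : Fin (r + 1) → ZMod m => w 0 = x).card = m ^ r := by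
  have : (univ.filter fun w : Fin (r + 1) → ZMod m => w 0 = x) =
      (univ : Finset (Fin r → ZMod m)).image (fun v => (Fin.cons (α := fun _ => ZMod m) x v : Fin (r + 1) → ZMod m)) := by
    ext w
    rw [mem_filter, mem_image]
    constructor
    · rintro ⟨-, rfl⟩
      refine ⟨tl w, mem_univ _, ?_⟩
      exact Fin.cons_self_tail w
    · rintro ⟨v, -, rfl⟩
      exact ⟨mem_univ _, Fin.cons_zero _ _⟩
  rw [this, card_image_of_injective, card_univ, Fintype.card_fun, ZMod.card, Fintype.card_fin]
  intro v v' h
  funext i
  have := congrFun h i.succ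
  simpa using this

/-- sequences in which every word of length `l` occurs at most once -/
theorem seqOK_one (hm : 3 ≤ m) : ∀ (l n : ℕ) [NeZero n], n < m ^ (l + 1) → m ∣ n →
    SeqOK m n (l + 1) 1 := by
  intro l
  induction l with
  | zero =>
    intro n _ h1 h2
    exfalso
    rw [zero_add, pow_one] at h1
    have := Nat.le_of_dvd (Nat.pos_of_ne_zero (NeZero.ne n)) h2
    omega
  | succ l ih =>
    intro n _ h1 h2
    rcases lt_trichotomy n (m ^ (l + 1)) with h | h | h
    · exact seqOK_mono_l (ih n h h2)
    · -- all words of length `l + 1`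
      apply seqOK_mono_l
      apply seqOK_of_label (E := Fin (l + 1) → ZMod m) (fun w => w)
      · rw [Fintype.card_fun, ZMod.card, Fintype.card_fin, h]
      · intro v
        rw [card_ini, card_tl]
      · intro P hP e e' he
        exact (full_conn P hP _ _).1 he
      · intro w
        rw [card_le_one]
        intro a ha b hb
        rw [mem_filter] at ha hb
        rw [ha.2, hb.2]
      · intro x
        rw [card_first, h, pow_succ, mul_comm]
    · obtain ⟨q, rfl⟩ := h2
      have hmpos : 0 < m := by omega
      have hq1 : m ^ l < q := by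
        rw [pow_succ, mul_comm] at h
        exact lt_of_mul_lt_mul_left h (Nat.zero_le m)
      have hq2 : q < m ^ (l + 1) := by
        rw [pow_succ m (l + 1), mul_comm (m ^ (l + 1))] at h1
        exact lt_of_mul_lt_mul_left h1 (Nat.zero_le m)
      have hS : ∃ S : Finset (Fin (l + 1) → ZMod m), Good S ∧ S.card = q := by
        cases l with
        | zero =>
          rw [pow_zero] at hq1
          rw [zero_add, pow_one] at hq2
          exact exists_loopset hm q hq1 hq2
        | succ l => exact good_exists hm l q hq1.le hq2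
      obtain ⟨S, hS, hSc⟩ := hS
      apply seqOK_of_set (lift S)
      · rw [card_lift, hSc]
      · exact bal_lift hS.bal
      · exact conn_lift hS.conn
      · intro x
        rw [card_lift_letter, hSc]

lemma card_sum_filter {α β : Type} [Fintype α] [Fintype β] (p : α ⊕ β → Prop) [DecidablePred p] :
    (univ.filter p).card = (univ.filter fun x => p (Sum.inl x)).card +
      (univ.filter fun x => p (Sum.inr x)).card := by
  classical
  rw [← Fintype.card_subtype, ← Fintype.card_subtype, ← Fintype.card_subtype, ← Fintype.card_sum]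
  exact Fintype.card_congr Equiv.subtypeSum

lemma card_prod_filter {α β : Type} [Fintype α] [Fintype β] (p : α → Prop) [DecidablePred p] :
    (univ.filter fun x : α × β => p x.1).card = (univ.filter p).card * Fintype.card β := by
  have : (univ.filter fun x : α × β => p x.1) = (univ.filter p) ×ˢ (univ : Finset β) := by
    ext x
    simp
  rw [this, card_product, card_univ]

/-- adding all words `c` times -/
theorem combine {E' : Type} [Fintype E'] [DecidableEq E'] {r b c n : ℕ} [NeZero n]
    (label' : E' → Fin (r + 1) → ZMod m)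
    (hbal : ∀ v : Fin r → ZMod m, (univ.filter fun e => ini (label' e) = v).card =
      (univ.filter fun e => tl (label' e) = v).card)
    (hlet : ∀ x : ZMod m, m * (univ.filter fun e => label' e 0 = x).card = Fintype.card E')
    (hb : ∀ w, (univ.filter fun e => label' e = w).card ≤ b) (hc : 0 < c)
    (hn : n = c * m ^ (r + 1) + Fintype.card E') : SeqOK m n (r + 1) (c + b) := by
  obtain ⟨label, hlabel⟩ : ∃ label : ((Fin (r + 1) → ZMod m) × Fin c) ⊕ E' → Fin (r + 1) → ZMod m,
    label = Sum.elim (fun x => x.1) label' := ⟨_, rfl⟩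
  have count : ∀ (p : (Fin (r + 1) → ZMod m) → Prop) [DecidablePred p],
      (univ.filter fun e => p (label e)).card = (univ.filter p).card * c +
        (univ.filter fun e => p (label' e)).card := by
    intro p _
    subst hlabel
    have e1 := card_sum_filter (α := (Fin (r + 1) → ZMod m) × Fin c) (β := E')
      (fun e => p (Sum.elim (fun x => x.1) label' e))
    have e2 := card_prod_filter (β := Fin c) p
    rw [Fintype.card_fin] at e2
    rw [← e2]
    convert e1
    · rfl
    · rfl
  apply seqOK_of_label label
  · rw [Fintype.card_sum, Fintype.card_prod, Fintype.card_fun, ZMod.card, Fintype.card_fin,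
      Fintype.card_fin, hn, mul_comm]
  · intro v
    rw [count (fun w => ini w = v), count (fun w => tl w = v), hbal, card_ini, card_tl]
  · intro P hP e e' he
    refine (full_conn P (fun w => ?_) _ _).1 he
    have := hP (Sum.inl (w, ⟨0, hc⟩))
    rw [hlabel] at this
    exact this
  · intro w
    rw [count (fun v => v = w)]
    have h1 : (univ.filter fun v : Fin (r + 1) → ZMod m => v = w).card = 1 := by
      rw [card_eq_one]
      exact ⟨w, by ext; simp⟩
    rw [h1, one_mul]
    exact Nat.add_le_add_left (hb w) c
  · intro x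
    rw [count (fun w => w 0 = x), card_first, mul_add, hlet, hn, pow_succ]
    ring

/-- balance of the words read along a cyclic sequence -/
lemma bal_seq {n r : ℕ} [NeZero n] (a : ZMod n → ZMod m) (v : Fin r → ZMod m) :
    (univ.filter fun i : ZMod n => ini (fun j : Fin (r + 1) => a (i + (j : ℕ))) = v).card =
      (univ.filter fun i : ZMod n => tl (fun j : Fin (r + 1) => a (i + (j : ℕ))) = v).card := by
  symm
  apply Finset.card_bij (fun i _ => i + 1)
  · intro i hi
    rw [mem_filter] at hi ⊢
    refine ⟨mem_univ _, ?_⟩
    rw [← hi.2]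
    funext j
    unfold ini tl
    simp only [Fin.val_castSucc, Fin.val_succ]
    push_cast
    congr 1
    ring
  · intro i _ i' _ h
    exact add_right_cancel h
  · intro i hi
    rw [mem_filter] at hi
    refine ⟨i - 1, ?_, sub_add_cancel i 1⟩
    rw [mem_filter]
    refine ⟨mem_univ _, ?_⟩
    rw [← hi.2]
    funext j
    unfold ini tl
    simp only [Fin.val_castSucc, Fin.val_succ]
    push_cast
    congr 1
    ring

theorem seqOK_all (hm : 3 ≤ m) (l n k : ℕ) [NeZero n] (hd : m ∣ n) (hk : n ≤ k * m ^ (l + 1)) :
    SeqOK m n (l + 1) k := by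
  have hpos : 0 < m ^ (l + 1) := pow_pos (by omega) _
  have hnpos : 0 < n := Nat.pos_of_ne_zero (NeZero.ne n)
  have hkpos : 0 < k := by
    rcases Nat.eq_zero_or_pos k with h | h
    · rw [h, zero_mul] at hk; omega
    · exact h
  have hdm := Nat.div_add_mod n (m ^ (l + 1))
  have hlt := Nat.mod_lt n hpos
  obtain ⟨c, hc⟩ : ∃ c, c = n / m ^ (l + 1) := ⟨_, rfl⟩
  obtain ⟨n', hn'⟩ : ∃ n', n' = n % m ^ (l + 1) := ⟨_, rfl⟩
  rw [← hc, ← hn'] at hdm
  rw [← hn'] at hlt
  rcases Nat.eq_zero_or_pos c with h0 | h0
  · rw [h0, mul_zero, zero_add] at hdm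
    rw [hdm] at hlt
    exact seqOK_mono_k hkpos (seqOK_one hm l n hlt hd)
  · rcases Nat.eq_zero_or_pos n' with h1 | h1
    · have hck : c ≤ k := by
        rw [h1, add_zero] at hdm
        rw [← hdm, mul_comm] at hk
        exact le_of_mul_le_mul_right hk hpos
      have := combine (m := m) (E' := Empty) (r := l) (b := 0) (c := c) (n := n) (fun e => e.elim)
        (fun v => rfl) (fun x => by simp) (fun w => by simp) h0
        (by rw [← hdm, h1, Fintype.card_empty, mul_comm])
      exact seqOK_mono_k (by rw [add_zero]; exact hck) this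
    · have hck : c + 1 ≤ k := by
        by_contra hcon
        have h2 : k ≤ c := by omega
        have h3 : k * m ^ (l + 1) ≤ c * m ^ (l + 1) := Nat.mul_le_mul_right _ h2
        rw [mul_comm] at hdm
        omega
      have hd' : m ∣ n' := by
        have h3 : m ∣ m ^ (l + 1) * c := Dvd.dvd.mul_right (dvd_pow_self m (by omega)) c
        exact (Nat.dvd_add_right h3).1 (by rw [hdm]; exact hd)
      have : NeZero n' := ⟨by omega⟩
      obtain ⟨a, ha1, ha2⟩ := seqOK_one hm l n' hlt hd'
      have := combine (m := m) (E' := ZMod n') (r := l) (b := 1) (c := c) (n := n)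
        (fun i j => a (i + (j : ℕ))) (fun v => bal_seq a v)
        (fun x => by
          rw [ZMod.card]
          refine Eq.trans ?_ (ha2 x)
          simp) (fun w => by
          refine le_trans (card_le_card ?_) (ha1 w)
          intro i hi
          rw [mem_filter] at hi ⊢
          exact ⟨mem_univ _, fun j => congrFun hi.2 j⟩) h0
        (by rw [← hdm, ZMod.card, mul_comm])
      exact seqOK_mono_k hck this

end Pool.Agent.T2H45
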